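import Pool.Agent.Helper72.Orb.Defs

/-!
# Covering maps onto the classifying spaces, and lifting of spheroids
-/

set_option autoImplicit false

open Topology unitInterval

namespace Pool.Agent.Helper72.Orb

universe u v w

/-! ### Spheroids -/

section Loops

variable {A B : Type*} [TopologicalSpace A] [TopologicalSpace B] {N : ℕ}

/-- The class in `π_N` of a spheroid. -/
def ofLoop {a : A} (l : GenLoop (Fin N) A a) : π_ N A a :=
  Quotient.mk (GenLoop.Homotopic.setoid (Fin N) a) l

theorem ofLoop_eq_iff {a : A} {l l' : GenLoop (Fin N) A a} :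
    ofLoop l = ofLoop l' ↔ l.1.HomotopicRel l'.1 (Cube.boundary (Fin N)) :=
  ⟨fun h => Quotient.exact h, fun h => Quotient.sound h⟩

theorem exists_ofLoop {a : A} (c : π_ N A a) : ∃ l : GenLoop (Fin N) A a, ofLoop l = c :=
  Quotient.exists_rep c

/-- The image of a spheroid. -/
def mapLoop (f : C(A, B)) {a : A} (l : GenLoop (Fin N) A a) : GenLoop (Fin N) B (f a) :=
  ⟨f.comp l.1, fun y hy => congrArg f (l.2 y hy)⟩

theorem piMap_ofLoop (f : C(A, B)) {a : A} (l : GenLoop (Fin N) A a) :
    piMap N f a (ofLoop l) = ofLoop (mapLoop f l) := rfl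

theorem one_eq_ofLoop {q : ℕ} {a : A} :
    (1 : π_ (q + 1) A a) = ofLoop (GenLoop.const (N := Fin (q + 1)) (x := a)) := rfl

end Loops

/-! ### Lifting -/

section Lift

variable {G Y G' Y' : Type*} [Group G] [MulAction G Y] [TopologicalSpace Y]
  [Group G'] [MulAction G' Y'] [TopologicalSpace Y']

theorem isCoveringMap_mk (hc : ∀ g : G, Continuous fun y : Y => g • y)
    (hd : ∀ y : Y, ∃ U ∈ 𝓝 y, ∀ g : G, ((g • ·) '' U ∩ U).Nonempty → g = 1) :
    IsCoveringMap (Quotient.mk'' : Y → MulAction.orbitRel.Quotient G Y) := by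
  have : IsQuotientCoveringMap (Quotient.mk'' : Y → MulAction.orbitRel.Quotient G Y) G :=
    { toIsQuotientMap := isQuotientMap_quotient_mk'
      continuous_const_smul := hc
      apply_eq_iff_mem_orbit := Quotient.eq''
      disjoint := hd }
  exact this.isCoveringMap

/-- A map from a cube lifts through a covering. -/
theorem exists_lift_cube {A B : Type*} [TopologicalSpace A] [TopologicalSpace B] {q : A → B}
    (hq : IsCoveringMap q) {N : ℕ} (d : C(Fin N → I, B)) (a : A) (ha : d 0 = q a) :
    ∃ L : C(Fin N → I, A), L 0 = a ∧ ∀ x, q (L x) = d x := by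
  let K : C(I × (Fin N → I), B) := ⟨fun p => d (fun i => p.1 * p.2 i), by
    apply d.continuous.comp
    apply continuous_pi
    intro i
    exact continuous_fst.mul ((continuous_apply i).comp continuous_snd)⟩
  have K0 : ∀ x, K (0, x) = q ((ContinuousMap.const (Fin N → I) a) x) := by
    intro x
    change d (fun i => 0 * x i) = q a
    rw [← ha]
    congr 1
    funext i
    simp
  let L := hq.liftHomotopy K (ContinuousMap.const _ a) K0
  have hL : ∀ p, q (L p) = K p := fun p =>
    congrFun (hq.liftHomotopy_lifts K (ContinuousMap.const _ a) K0) p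
  have hL0 : ∀ x, L (0, x) = a := fun x =>
    hq.liftHomotopy_zero K (ContinuousMap.const _ a) K0 x
  -- along the constant path at the vertex `0` the lift is constant
  have hconst : L (1, 0) = a := by
    have h1 : (fun t : I => L (t, 0)) = fun _ => a := by
      have e : (fun t : I => L (t, 0)) 0 = (fun _ : I => a) 0 := hL0 0
      refine hq.eq_of_comp_eq (g₁ := fun t : I => L (t, 0)) (g₂ := fun _ => a)
        (L.continuous.comp (by fun_prop)) continuous_const ?_ 0 e
      funext t
      change q (L (t, 0)) = q a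
      rw [hL, ← ha]
      change d (fun i => t * 0) = d 0
      congr 1
      funext i
      simp
    exact congrFun h1 1
  refine ⟨⟨fun x => L (1, x), L.continuous.comp (by fun_prop)⟩, hconst, ?_⟩
  intro x
  change q (L (1, x)) = d x
  rw [hL]
  change d (fun i => 1 * x i) = d x
  congr 1
  funext i
  simp

/-- Spheroids downstairs whose images are homotopic lift to spheroids upstairs. -/
theorem exists_lift_loop {N : ℕ} (hN : 1 ≤ N) {q : Y → MulAction.orbitRel.Quotient G Y}
    {q' : Y' → MulAction.orbitRel.Quotient G' Y'} (hq : IsCoveringMap q) (hq' : IsCoveringMap q')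
    (i : C(MulAction.orbitRel.Quotient G Y, MulAction.orbitRel.Quotient G' Y')) (j : C(Y, Y'))
    (hij : ∀ y, i (q y) = q' (j y)) (hj : Function.Injective j) (y₀ : Y)
    (γ : GenLoop (Fin N) Y' (j y₀)) (d : GenLoop (Fin N) (MulAction.orbitRel.Quotient G Y) (q y₀))
    (h : (ContinuousMap.comp ⟨q', hq'.continuous⟩ γ.1).HomotopicRel (i.comp d.1)
      (Cube.boundary (Fin N))) :
    ∃ l : GenLoop (Fin N) Y y₀, γ.1.HomotopicRel (j.comp l.1) (Cube.boundary (Fin N)) := by
  have h0 : (0 : Fin N → I) ∈ Cube.boundary (Fin N) := ⟨⟨0, hN⟩, Or.inl rfl⟩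
  obtain ⟨L, hL0, hL⟩ := exists_lift_cube hq d.1 y₀ (d.2 0 h0)
  have hid : i.comp d.1 = ContinuousMap.comp ⟨q', hq'.continuous⟩ (j.comp L) := by
    ext x
    change i (d.1 x) = q' (j (L x))
    rw [← hL, hij]
  rw [hid] at h
  have key : γ.1.HomotopicRel (j.comp L) (Cube.boundary (Fin N)) := by
    rw [hq'.homotopicRel_iff_comp ⟨0, h0, ?_⟩]
    · exact h
    · change γ.1 0 = j (L 0)
      rw [hL0]
      exact γ.2 0 h0
  refine ⟨⟨L, ?_⟩, key⟩
  intro x hx
  apply hj
  obtain ⟨K⟩ := key
  have a1 := K.eq_fst 0 hx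
  have a2 := K.eq_snd 0 hx
  have a3 : γ.1 x = (j.comp L) x := a1.symm.trans a2
  exact a3.symm.trans (γ.2 x hx)

end Lift

/-! ### The coverings of the classifying spaces -/

section Covers

variable {H : Type u} [Group H] {E : Type v} [TopologicalSpace E] [MulAction H E]
  {X : Type w} [TopologicalSpace X] [MulAction H X]

/-- The covering `E × (X ∖ H·y) → E ×_H (X ∖ H·y)`. -/
theorem cover_fiber (hE : IsUniversalSpace H E) (hX : ∀ h : H, Continuous fun x : X => h • x)
    {n : ℕ} (y : OrbitConf H X n) :
    IsCoveringMap (Quotient.mk'' : E × Punctured H y → ClassFiber H E y) := by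
  apply isCoveringMap_mk
  · intro g
    apply Continuous.prodMk
    · exact (hE.continuous_smul g).comp continuous_fst
    · apply Continuous.subtype_mk
      exact (hX g).comp (continuous_subtype_val.comp continuous_snd)
  · intro a
    obtain ⟨U, hU, hU'⟩ := hE.disjoint a.1
    refine ⟨Prod.fst ⁻¹' U, continuous_fst.continuousAt.preimage_mem_nhds hU, ?_⟩
    rintro g ⟨b, ⟨c, hc, rfl⟩, hb⟩
    exact hU' g ⟨g • c.1, ⟨c.1, hc, rfl⟩, hb⟩

/-- The covering `E^n × (orbit configurations) → classifying space of PB_n`. -/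
theorem cover_PB (hE : IsUniversalSpace H E) (hX : ∀ h : H, Continuous fun x : X => h • x)
    (n : ℕ) :
    IsCoveringMap (Quotient.mk'' : (Fin n → E) × OrbitConf H X n → ClassPB H E X n) := by
  apply isCoveringMap_mk
  · intro g
    apply Continuous.prodMk
    · exact continuous_pi fun i =>
        (hE.continuous_smul (g i)).comp ((continuous_apply i).comp continuous_fst)
    · apply Continuous.subtype_mk
      exact continuous_pi fun i => (hX (g i)).comp
        ((continuous_apply i).comp (continuous_subtype_val.comp continuous_snd))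
  · intro a
    choose U hU hU' using hE.disjoint
    refine ⟨Prod.fst ⁻¹' (Set.pi Set.univ fun i => U (a.1 i)),
      continuous_fst.continuousAt.preimage_mem_nhds (set_pi_mem_nhds Set.finite_univ
        fun i _ => hU (a.1 i)), ?_⟩
    rintro g ⟨b, ⟨c, hc, rfl⟩, hb⟩
    funext i
    exact hU' (a.1 i) (g i) ⟨g i • c.1 i, ⟨c.1 i, hc i (Set.mem_univ i), rfl⟩,
      hb i (Set.mem_univ i)⟩

/-- The last point of a configuration, as a point of the fibre. -/
def OrbitConf.last {n : ℕ} (x : OrbitConf H X (n + 1)) : Punctured H x.init :=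
  ⟨x.1 (Fin.last n), fun i h => x.2 (Fin.last n) i.castSucc (Fin.castSucc_lt_last i).ne' h⟩

omit [TopologicalSpace X] in
theorem snoc_init_last {n : ℕ} (x : OrbitConf H X (n + 1)) : x.init.snoc x.last = x := by
  apply Subtype.ext
  change (Fin.snoc (fun i : Fin n => x.1 i.castSucc) (x.1 (Fin.last n)) : Fin (n + 1) → X) = x.1
  exact Fin.snoc_init_self x.1

/-- The map `E × (X ∖ H·y) → E^{n+1} × (orbit configurations)` adding a point. -/
def addPoint {n : ℕ} (e : Fin n → E) (y : OrbitConf H X n) :
    C(E × Punctured H y, (Fin (n + 1) → E) × OrbitConf H X (n + 1)) where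
  toFun a := (Fin.snoc e a.1, y.snoc a.2)
  continuous_toFun := by
    apply Continuous.prodMk
    · exact Continuous.finSnoc continuous_const continuous_fst
    · apply Continuous.subtype_mk
      exact Continuous.finSnoc continuous_const (continuous_subtype_val.comp continuous_snd)

omit [MulAction H E] in
theorem addPoint_injective {n : ℕ} (e : Fin n → E) (y : OrbitConf H X n) :
    Function.Injective (addPoint e y) := by
  intro a b h
  have h1 : (Fin.snoc e a.1 : Fin (n + 1) → E) = Fin.snoc e b.1 := congrArg Prod.fst h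
  have h2 : (Fin.snoc y.1 a.2.1 : Fin (n + 1) → X) = Fin.snoc y.1 b.2.1 :=
    congrArg (fun c => c.2.1) h
  apply Prod.ext
  · have := congrFun h1 (Fin.last n)
    rwa [Fin.snoc_last, Fin.snoc_last] at this
  · apply Subtype.ext
    have := congrFun h2 (Fin.last n)
    rwa [Fin.snoc_last, Fin.snoc_last] at this

/-- The map from configurations to the classifying space given by a point of `E^n`. -/
def atPoint {n : ℕ} (e : Fin n → E) : C(OrbitConf H X n, ClassPB H E X n) where
  toFun x := Quotient.mk'' (e, x)
  continuous_toFun := continuous_quotient_mk'.comp (continuous_const.prodMk continuous_id)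

theorem continuous_init {n : ℕ} :
    Continuous (OrbitConf.init : OrbitConf H X (n + 1) → OrbitConf H X n) := by
  apply Continuous.subtype_mk
  exact continuous_pi fun i => (continuous_apply _).comp continuous_subtype_val

/-- The main consequence of exactness at `π_N` of the total space: a spheroid of configurations
which becomes null homotopic after forgetting the last point is homotopic, in the space of
configurations, to a spheroid in the fibre. -/
theorem exists_fiber_loop (hE : IsUniversalSpace H E)
    (hX : ∀ h : H, Continuous fun x : X => h • x) {n : ℕ} (hQ : IsQuasifibration H E X n)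
    (x₀ : OrbitConf H X (n + 1)) (hsm : ∀ g : Fin n → H, g • x₀.init = x₀.init → g = 1)
    {N : ℕ} (hN : 1 ≤ N) (s : C(Fin N → I, OrbitConf H X (n + 1)))
    (hs : ∀ x ∈ Cube.boundary (Fin N), s x = x₀)
    (hnull : (ContinuousMap.comp ⟨OrbitConf.init, continuous_init⟩ s).HomotopicRel
      (ContinuousMap.const _ x₀.init) (Cube.boundary (Fin N))) :
    ∃ l : C(Fin N → I, Punctured H x₀.init), (∀ x ∈ Cube.boundary (Fin N), l x = x₀.last) ∧
      ∃ K : C(I × (Fin N → I), OrbitConf H X (n + 1)), (∀ x, K (0, x) = s x) ∧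
        (∀ x, K (1, x) = x₀.init.snoc (l x)) ∧
        ∀ t, ∀ x ∈ Cube.boundary (Fin N), K (t, x) = x₀ := by
  obtain ⟨m, rfl⟩ : ∃ m, N = m + 1 := ⟨N - 1, by omega⟩
  obtain ⟨e0⟩ : Nonempty E := by
    have := hE.contractible
    infer_instance
  set y : OrbitConf H X n := x₀.init with hy
  set z : Punctured H y := x₀.last with hz
  have hx : y.snoc z = x₀ := snoc_init_last _
  set e : Fin n → E := fun _ => e0 with he
  obtain ⟨δ, -, h2, -, -⟩ := hQ y hsm z e e0
  set ee : Fin (n + 1) → E := Fin.snoc e e0 with hee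
  -- the spheroid upstairs
  let γ : GenLoop (Fin (m + 1)) ((Fin (n + 1) → E) × OrbitConf H X (n + 1))
      (addPoint e y (e0, z)) :=
    ⟨⟨fun x => (ee, s x), continuous_const.prodMk s.continuous⟩, fun x hx' => by
      change (ee, s x) = (ee, y.snoc z)
      rw [hs x hx', hx]⟩
  let Γ : GenLoop (Fin (m + 1)) (ClassPB H E X (n + 1))
      (classIncl e y (Quotient.mk'' (e0, z))) :=
    ⟨(atPoint ee).comp s, fun x hx' => by
      change atPoint ee (s x) = Quotient.mk'' (ee, y.snoc z)
      rw [hs x hx', hx]
      rfl⟩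
  have hker : piMap (m + 1) (classForget n) (classIncl e y (Quotient.mk'' (e0, z))) (ofLoop Γ) =
      1 := by
    rw [piMap_ofLoop, one_eq_ofLoop, ofLoop_eq_iff]
    obtain ⟨K⟩ := hnull
    have hK := K.compContinuousMap (atPoint (X := X) (H := H) e)
    refine ⟨hK.cast ?_ ?_⟩
    · ext x
      change atPoint e (s x).init = classForget n (atPoint ee (s x))
      change (Quotient.mk'' (e, (s x).init) : ClassPB H E X n) =
        Quotient.mk'' ((fun i => ee i.castSucc), (s x).init)
      congr 2
      funext i
      simp [hee]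
    · ext x
      change (Quotient.mk'' (e, y) : ClassPB H E X n) =
        Quotient.mk'' ((fun i => ee i.castSucc), (y.snoc z).init)
      rw [hx]
      congr 2
      funext i
      simp [hee]
  obtain ⟨b, hb⟩ := (h2 m (ofLoop Γ)).1 hker
  obtain ⟨d, rfl⟩ := exists_ofLoop b
  rw [piMap_ofLoop, ofLoop_eq_iff] at hb
  have hb' := hb.symm
  obtain ⟨l, hl⟩ := exists_lift_loop hN (cover_fiber hE hX y) (cover_PB hE hX (n + 1))
    (classIncl e y) (addPoint e y) (fun _ => rfl) (addPoint_injective e y) (e0, z) γ d hb'
  obtain ⟨K⟩ := hl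
  refine ⟨⟨fun x => (l.1 x).2, continuous_snd.comp l.1.continuous⟩, ?_,
    ⟨fun p => (K p).2, continuous_snd.comp K.continuous⟩, ?_, ?_, ?_⟩
  · intro x hx'
    change (l.1 x).2 = z
    have := l.2 x hx'
    rw [show l.1 x = (e0, z) from this]
  · intro x
    change (K (0, x)).2 = s x
    rw [K.apply_zero]
    rfl
  · intro x
    change (K (1, x)).2 = y.snoc (l.1 x).2
    rw [K.apply_one]
    rfl
  · intro t x hx'
    change (K (t, x)).2 = x₀
    have := K.eq_fst t hx'
    rw [this]
    exact hs x hx'

end Covers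

end Pool.Agent.Helper72.Orb
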