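import Pool.Agent.Helper30.Brouwer.Kakutani

/-!
# A parametrisation of a sphere by a cube, and a form of Brouwer's theorem
-/

set_option autoImplicit false

open Topology unitInterval Set

namespace Pool.Agent.Helper72.Orb

/-! ### The model map -/

section Model

variable {N : ℕ}

/-- The centred coordinate vector of a point of the cube. -/
noncomputable def cc (x : Fin N → I) : Fin N → ℝ := fun i => (x i : ℝ) - 1 / 2

theorem continuous_cc : Continuous (cc : (Fin N → I) → Fin N → ℝ) := by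
  apply continuous_pi
  intro i
  exact (continuous_subtype_val.comp (continuous_apply i)).sub continuous_const

theorem cc_injective : Function.Injective (cc : (Fin N → I) → Fin N → ℝ) := by
  intro x y h
  funext i
  have := congrFun h i
  simp only [cc] at this
  exact Subtype.ext (by linarith)

theorem norm_cc_le (x : Fin N → I) : ‖cc x‖ ≤ 1 / 2 := by
  rw [pi_norm_le_iff_of_nonneg (by norm_num)]
  intro i
  rw [Real.norm_eq_abs, abs_le]
  have h1 := (x i).2.1
  have h2 := (x i).2.2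
  constructor <;> simp only [cc] <;> linarith

theorem norm_cc_boundary {x : Fin N → I} (hx : x ∈ Cube.boundary (Fin N)) : ‖cc x‖ = 1 / 2 := by
  apply le_antisymm (norm_cc_le x)
  obtain ⟨i, hi⟩ := hx
  have h := norm_le_pi_norm (cc x) i
  refine le_trans (le_of_eq ?_) h
  rw [Real.norm_eq_abs]
  rcases hi with hi | hi
  · simp only [cc, hi]; norm_num
  · simp only [cc, hi]; norm_num

theorem mem_boundary_of_norm {x : Fin N → I} (hx : ‖cc x‖ = 1 / 2) :
    x ∈ Cube.boundary (Fin N) := by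
  by_contra h
  have h' : ∀ i, x i ≠ 0 ∧ x i ≠ 1 := by
    intro i
    constructor
    · intro h0; exact h ⟨i, Or.inl h0⟩
    · intro h0; exact h ⟨i, Or.inr h0⟩
  have : ‖cc x‖ < 1 / 2 := by
    rw [pi_norm_lt_iff (by norm_num)]
    intro i
    rw [Real.norm_eq_abs, abs_lt]
    have h1 : (0 : ℝ) < x i := unitInterval.pos_iff_ne_zero.2 (h' i).1
    have h2 : (x i : ℝ) < 1 := unitInterval.lt_one_iff_ne_one.2 (h' i).2
    constructor <;> simp only [cc] <;> linarith
  linarith

/-- The point of the cube with given centred coordinates. -/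
noncomputable def ofCc (c : Fin N → ℝ) (hc : ‖c‖ ≤ 1 / 2) : Fin N → I := fun i =>
  ⟨c i + 1 / 2, by
    have h := (norm_le_pi_norm c i).trans hc
    rw [Real.norm_eq_abs, abs_le] at h
    constructor <;> linarith⟩

theorem cc_ofCc (c : Fin N → ℝ) (hc : ‖c‖ ≤ 1 / 2) : cc (ofCc c hc) = c := by
  funext i
  simp [cc, ofCc]

/-- The model map from the cube to `ℝ^N × ℝ ∖ {0}`. -/
noncomputable def kap (x : Fin N → I) : (Fin N → ℝ) × ℝ :=
  ((2 * (1 / 2 - ‖cc x‖)) • cc x, ‖cc x‖ ^ 2 - (1 / 2 - ‖cc x‖) ^ 2)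

theorem continuous_kap : Continuous (kap : (Fin N → I) → (Fin N → ℝ) × ℝ) := by
  have := continuous_cc (N := N)
  unfold kap
  fun_prop

theorem norm_kap_fst (x : Fin N → I) :
    ‖(kap x).1‖ = 2 * (1 / 2 - ‖cc x‖) * ‖cc x‖ := by
  unfold kap
  rw [norm_smul, Real.norm_eq_abs, abs_of_nonneg]
  have := norm_cc_le x
  linarith

theorem kap_boundary {x : Fin N → I} (hx : x ∈ Cube.boundary (Fin N)) : kap x = (0, 1 / 4) := by
  unfold kap
  rw [norm_cc_boundary hx]
  ext <;> norm_num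

theorem kap_ne_zero (x : Fin N → I) : kap x ≠ 0 := by
  intro h
  have h1 : ‖(kap x).1‖ = 0 := by rw [h]; simp
  have h2 : (kap x).2 = 0 := by rw [h]; simp
  rw [norm_kap_fst] at h1
  unfold kap at h2
  simp only at h2
  have h3 := norm_cc_le x
  have h4 := norm_nonneg (cc x)
  have h5 : (‖cc x‖ ^ 2 + (1 / 2 - ‖cc x‖) ^ 2) ^ 2 = 0 := by
    have : (‖cc x‖ ^ 2 + (1 / 2 - ‖cc x‖) ^ 2) ^ 2 =
      (‖cc x‖ ^ 2 - (1 / 2 - ‖cc x‖) ^ 2) ^ 2 + (2 * (1 / 2 - ‖cc x‖) * ‖cc x‖) ^ 2 := by ring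
    rw [this, h2, h1]; ring
  have h6 : ‖cc x‖ ^ 2 + (1 / 2 - ‖cc x‖) ^ 2 = 0 := by
    exact pow_eq_zero_iff (two_ne_zero) |>.1 h5
  nlinarith

/-- Injectivity on rays. -/
theorem kap_ray {x y : Fin N → I} {s t : ℝ} (hs : 0 < s) (ht : 0 < t)
    (h : s • kap x = t • kap y) :
    s = t ∧ (x = y ∨ (x ∈ Cube.boundary (Fin N) ∧ y ∈ Cube.boundary (Fin N))) := by
  have h1 : s • (kap x).1 = t • (kap y).1 := congrArg Prod.fst h
  have h2 : s * (kap x).2 = t * (kap y).2 := congrArg Prod.snd h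
  have n1 : s * (2 * (1 / 2 - ‖cc x‖) * ‖cc x‖) = t * (2 * (1 / 2 - ‖cc y‖) * ‖cc y‖) := by
    have := congrArg norm h1
    rwa [norm_smul, norm_smul, norm_kap_fst, norm_kap_fst, Real.norm_eq_abs, Real.norm_eq_abs,
      abs_of_pos hs, abs_of_pos ht] at this
  have n2 : s * (‖cc x‖ ^ 2 - (1 / 2 - ‖cc x‖) ^ 2) = t * (‖cc y‖ ^ 2 - (1 / 2 - ‖cc y‖) ^ 2) := h2
  set a := ‖cc x‖ with ha
  set b := ‖cc y‖ with hb
  have ha0 : 0 ≤ a := norm_nonneg _
  have hb0 : 0 ≤ b := norm_nonneg _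
  have ha1 : a ≤ 1 / 2 := norm_cc_le x
  have hb1 : b ≤ 1 / 2 := norm_cc_le y
  have e3 : s * (a ^ 2 + (1 / 2 - a) ^ 2) = t * (b ^ 2 + (1 / 2 - b) ^ 2) := by
    have l : 0 ≤ s * (a ^ 2 + (1 / 2 - a) ^ 2) := by positivity
    have r : 0 ≤ t * (b ^ 2 + (1 / 2 - b) ^ 2) := by positivity
    have sq : (s * (a ^ 2 + (1 / 2 - a) ^ 2)) ^ 2 = (t * (b ^ 2 + (1 / 2 - b) ^ 2)) ^ 2 := by
      have e1 : (s * (a ^ 2 + (1 / 2 - a) ^ 2)) ^ 2 =
        (s * (a ^ 2 - (1 / 2 - a) ^ 2)) ^ 2 + (s * (2 * (1 / 2 - a) * a)) ^ 2 := by ring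
      have e2 : (t * (b ^ 2 + (1 / 2 - b) ^ 2)) ^ 2 =
        (t * (b ^ 2 - (1 / 2 - b) ^ 2)) ^ 2 + (t * (2 * (1 / 2 - b) * b)) ^ 2 := by ring
      rw [e1, e2, n1, n2]
    exact (pow_left_inj₀ l r two_ne_zero).1 sq
  have e4 : s * a ^ 2 = t * b ^ 2 := by linarith
  have e5 : s * (1 / 2 - a) ^ 2 = t * (1 / 2 - b) ^ 2 := by linarith
  have f4 : Real.sqrt s * a = Real.sqrt t * b := by
    have l : 0 ≤ Real.sqrt s * a := by positivity
    have r : 0 ≤ Real.sqrt t * b := by positivity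
    apply (pow_left_inj₀ l r two_ne_zero).1
    rw [mul_pow, mul_pow, Real.sq_sqrt hs.le, Real.sq_sqrt ht.le, e4]
  have f5 : Real.sqrt s * (1 / 2 - a) = Real.sqrt t * (1 / 2 - b) := by
    have l : 0 ≤ Real.sqrt s * (1 / 2 - a) := mul_nonneg (Real.sqrt_nonneg _) (by linarith)
    have r : 0 ≤ Real.sqrt t * (1 / 2 - b) := mul_nonneg (Real.sqrt_nonneg _) (by linarith)
    apply (pow_left_inj₀ l r two_ne_zero).1
    rw [mul_pow, mul_pow, Real.sq_sqrt hs.le, Real.sq_sqrt ht.le, e5]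
  have f6 : Real.sqrt s = Real.sqrt t := by nlinarith
  have hst : s = t := by
    rw [← Real.sq_sqrt hs.le, ← Real.sq_sqrt ht.le, f6]
  refine ⟨hst, ?_⟩
  subst hst
  have hab : a = b := by
    have : 0 < Real.sqrt s := Real.sqrt_pos.2 hs
    exact mul_left_cancel₀ this.ne' f4
  by_cases hh : a = 1 / 2
  · right
    exact ⟨mem_boundary_of_norm (ha ▸ hh), mem_boundary_of_norm (by rw [← hb, ← hab, hh])⟩
  · left
    apply cc_injective
    have h7 : (kap x).1 = (kap y).1 := smul_right_injective _ hs.ne' h1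
    unfold kap at h7
    simp only at h7
    rw [← ha, ← hb, ← hab] at h7
    apply smul_right_injective _ _ h7
    intro h0
    apply hh
    linarith

/-- Every nonzero vector is a positive multiple of a value of `kap`. -/
theorem exists_kap (hN : 1 ≤ N) (y : (Fin N → ℝ) × ℝ) (hy : y ≠ 0) :
    ∃ (x : Fin N → I) (s : ℝ), 0 < s ∧ y = s • kap x := by
  obtain ⟨u, v⟩ := y
  by_cases hu : u = 0
  · subst hu
    have hv : v ≠ 0 := fun h => hy (by rw [h]; rfl)
    rcases lt_or_gt_of_ne hv with hv | hv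
    · refine ⟨ofCc 0 (by simp), -4 * v, by linarith, ?_⟩
      unfold kap
      rw [cc_ofCc]
      ext
      · simp
      · simp; ring
    · refine ⟨fun _ => 0, 4 * v, by linarith, ?_⟩
      rw [kap_boundary ⟨⟨0, hN⟩, Or.inl rfl⟩]
      ext
      · simp
      · simp; ring
  · have hpos : 0 < ‖u‖ := norm_pos_iff.2 hu
    set t := ‖u‖ with ht
    set r := Real.sqrt (v ^ 2 + t ^ 2) with hr
    have hr2 : r ^ 2 = v ^ 2 + t ^ 2 := Real.sq_sqrt (by positivity)
    have hrv : |v| < r := by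
      rw [hr]
      apply Real.lt_sqrt_of_sq_lt
      rw [sq_abs]
      nlinarith
    have hrv1 : 0 < v + r := by
      have := neg_abs_le v
      linarith
    set w := (v + r) / t with hw
    have hw0 : 0 < w := div_pos hrv1 hpos
    have hwt : w * t = v + r := by
      rw [hw]; field_simp
    have hw2 : (w ^ 2 - 1) * t = 2 * w * v := by
      have h1 : (w ^ 2 - 1) * t * t = 2 * w * v * t := by
        have : (w ^ 2 - 1) * t * t = (w * t) ^ 2 - t ^ 2 := by ring
        rw [this, hwt]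
        have : 2 * w * v * t = 2 * v * (w * t) := by ring
        rw [this, hwt]
        nlinarith
      exact mul_right_cancel₀ hpos.ne' h1
    -- `c = (w / (2 (1 + w))) u / t`
    set a := w / (2 * (1 + w)) with ha
    have ha0 : 0 < a := by positivity
    have ha1 : 1 / 2 - a = 1 / (2 * (1 + w)) := by
      rw [ha]; field_simp; ring
    have hnorm : ‖(a / t) • u‖ = a := by
      rw [norm_smul, Real.norm_eq_abs, abs_of_pos (by positivity), ← ht]
      field_simp
    have ha2 : a ≤ 1 / 2 := by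
      have : 0 < 1 / (2 * (1 + w)) := by positivity
      linarith
    refine ⟨ofCc ((a / t) • u) (by rw [hnorm]; exact ha2), t * (2 * (1 + w) ^ 2) / w, by positivity,
      ?_⟩
    unfold kap
    rw [cc_ofCc, hnorm, ha1]
    ext i
    · simp only [Prod.smul_mk, Pi.smul_apply, smul_eq_mul]
      rw [ha]
      field_simp
    · simp only [Prod.smul_mk, smul_eq_mul]
      rw [ha]
      have e : t * (2 * (1 + w) ^ 2) / w * ((w / (2 * (1 + w))) ^ 2 - (1 / (2 * (1 + w))) ^ 2) =
        (w ^ 2 - 1) * t / (2 * w) := by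
        field_simp
      rw [e, hw2]
      field_simp

end Model

section Main

variable {Z : Type*} [NormedAddCommGroup Z] [NormedSpace ℝ Z] [FiniteDimensional ℝ Z] {N : ℕ}

/-- There is a map from the cube `I^N` to `Z ∖ {0}`, where `dim Z = N + 1`, constant on the
boundary, such that any map in suitable position with respect to it is not null homotopic. -/
theorem exists_kappa (hN : 1 ≤ N) (hZ : Module.finrank ℝ Z = N + 1) (e : Z) (he : e ≠ 0) :
    ∃ κ : C(Fin N → I, Z), (∀ x, κ x ≠ 0) ∧ (∀ x ∈ Cube.boundary (Fin N), κ x = e) ∧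
      ∀ H : C(I × (Fin N → I), Z), (∀ p, H p ≠ 0) →
        (∀ t, ∀ x ∈ Cube.boundary (Fin N), ∀ y ∈ Cube.boundary (Fin N), H (t, x) = H (t, y)) →
        (∀ x y, H (1, x) = H (1, y)) →
        ∃ x, ∃ t : ℝ, 0 ≤ t ∧ t ≤ 1 ∧ (1 - t) • H (0, x) + t • κ x = 0 := by
  classical
  have hfr : Module.finrank ℝ ((Fin N → ℝ) × ℝ) = Module.finrank ℝ Z := by
    rw [hZ, Module.finrank_prod]
    simp
  let e0 : ((Fin N → ℝ) × ℝ) ≃L[ℝ] Z := ContinuousLinearEquiv.ofFinrankEq hfr
  have hne : e0 (0, 1 / 4) ≠ 0 := by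
    intro h
    have : ((0, 1 / 4) : (Fin N → ℝ) × ℝ) = 0 := by
      apply e0.injective
      rw [h, map_zero]
    have := congrArg Prod.snd this
    norm_num at this
  obtain ⟨A, hA⟩ := SeparatingDual.exists_continuousLinearEquiv_apply_eq (R := ℝ) hne he
  let Λ : ((Fin N → ℝ) × ℝ) ≃L[ℝ] Z := e0.trans A
  have hΛ : Λ (0, 1 / 4) = e := hA
  let κ : C(Fin N → I, Z) := ⟨fun x => Λ (kap x), Λ.continuous.comp continuous_kap⟩
  have hκ : ∀ x, κ x = Λ (kap x) := fun x => rfl
  have hκ0 : ∀ x, κ x ≠ 0 := by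
    intro x h
    apply kap_ne_zero x
    apply Λ.injective
    rw [map_zero]
    exact h
  refine ⟨κ, hκ0, ?_, ?_⟩
  · intro x hx
    rw [hκ, kap_boundary hx, hΛ]
  intro H hH hbd hone
  have hn : ∀ x, 0 < ‖κ x‖ := fun x => norm_pos_iff.2 (hκ0 x)
  -- the quotient map onto the ball
  let mm : I × (Fin N → I) → Z := fun p => (p.1 : ℝ) • (‖κ p.2‖⁻¹ • κ p.2)
  have hmnorm : ∀ p, ‖mm p‖ = p.1 := by
    intro p
    simp only [mm, norm_smul, norm_inv, norm_norm]
    rw [inv_mul_cancel₀ (hn p.2).ne', mul_one, Real.norm_eq_abs, abs_of_nonneg p.1.2.1]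
  let m : C(I × (Fin N → I), Metric.closedBall (0 : Z) 1) :=
    { toFun := fun p => ⟨mm p, by
        rw [mem_closedBall_zero_iff, hmnorm]; exact p.1.2.2⟩
      continuous_toFun := by
        apply Continuous.subtype_mk
        have h2 : Continuous fun p : I × (Fin N → I) => κ p.2 := κ.continuous.comp continuous_snd
        have h1 : Continuous fun p : I × (Fin N → I) => ‖κ p.2‖⁻¹ :=
          h2.norm.inv₀ fun p => (hn p.2).ne'
        have h3 : Continuous fun p : I × (Fin N → I) => (p.1 : ℝ) :=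
          continuous_subtype_val.comp continuous_fst
        exact h3.smul (h1.smul h2) }
  have hm : ∀ p, (m p : Z) = (p.1 : ℝ) • (‖κ p.2‖⁻¹ • κ p.2) := fun p => rfl
  have hsurj : Function.Surjective m := by
    rintro ⟨y, hy⟩
    rw [mem_closedBall_zero_iff] at hy
    by_cases h0 : y = 0
    · subst h0
      refine ⟨(0, fun _ => 0), Subtype.ext ?_⟩
      rw [hm]
      simp
    · obtain ⟨x, s, hs, hx⟩ := exists_kap hN (Λ.symm y) (by
        intro h
        apply h0
        apply Λ.symm.injective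
        rw [h, map_zero])
      have hy' : y = s • κ x := by
        rw [hκ, ← map_smul, ← hx, ContinuousLinearEquiv.apply_symm_apply]
      refine ⟨(⟨‖y‖, norm_nonneg _, hy⟩, x), Subtype.ext ?_⟩
      rw [hm]
      change ‖y‖ • (‖κ x‖⁻¹ • κ x) = y
      rw [hy', norm_smul, Real.norm_eq_abs, abs_of_pos hs, smul_smul]
      congr 1
      rw [mul_assoc, mul_inv_cancel₀ (hn x).ne', mul_one]
  have hquot : IsQuotientMap m :=
    (m.continuous.isClosedMap).isQuotientMap m.continuous hsurj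
  let g : C(I × (Fin N → I), Z) := ⟨fun p => H (σ p.1, p.2), by
    exact H.continuous.comp ((continuous_symm.comp continuous_fst).prodMk continuous_snd)⟩
  have hfac : Function.FactorsThrough g m := by
    rintro ⟨τ, x⟩ ⟨τ', x'⟩ h
    have hv : mm (τ, x) = mm (τ', x') := congrArg Subtype.val h
    have hττ : τ = τ' := by
      apply Subtype.ext
      have := congrArg norm hv
      rwa [hmnorm, hmnorm] at this
    subst hττ
    change H (σ τ, x) = H (σ τ, x')
    by_cases h0 : τ = 0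
    · rw [h0, unitInterval.symm_zero]
      exact hone x x'
    · have hpos : (0 : ℝ) < τ := unitInterval.pos_iff_ne_zero.2 h0
      have h1 : ‖κ x‖⁻¹ • κ x = ‖κ x'‖⁻¹ • κ x' := smul_right_injective _ hpos.ne' hv
      have h2 : ‖κ x‖⁻¹ • kap x = ‖κ x'‖⁻¹ • kap x' := by
        apply Λ.injective
        rw [map_smul, map_smul]
        exact h1
      rcases (kap_ray (inv_pos.2 (hn x)) (inv_pos.2 (hn x')) h2).2 with h3 | ⟨h3, h4⟩
      · rw [h3]
      · exact hbd _ x h3 x' h4
  let Φ : C(Metric.closedBall (0 : Z) 1, Z) := hquot.lift g hfac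
  have hΦ : ∀ p, Φ (m p) = H (σ p.1, p.2) := by
    intro p
    have := hquot.lift_comp g hfac
    exact congrArg (fun f : C(I × (Fin N → I), Z) => f p) this
  have hΦ0 : ∀ y, Φ y ≠ 0 := by
    intro y
    obtain ⟨p, rfl⟩ := hsurj y
    rw [hΦ]
    exact hH _
  let f : Z → Z := fun y =>
    if h : y ∈ Metric.closedBall (0 : Z) 1 then -(‖Φ ⟨y, h⟩‖⁻¹ • Φ ⟨y, h⟩) else 0
  have hfc : ContinuousOn f (Metric.closedBall (0 : Z) 1) := by
    rw [continuousOn_iff_continuous_domRestrict]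
    have h1 : Continuous fun y : Metric.closedBall (0 : Z) 1 => -(‖Φ y‖⁻¹ • Φ y) :=
      (((Φ.continuous.norm).inv₀ fun y => (norm_pos_iff.2 (hΦ0 y)).ne').smul
        Φ.continuous).neg
    refine h1.congr ?_
    intro y
    change _ = f y.1
    simp only [f]
    rw [dif_pos y.2]
  have hfm : MapsTo f (Metric.closedBall (0 : Z) 1) (Metric.closedBall (0 : Z) 1) := by
    intro y hy
    simp only [f]
    rw [dif_pos hy, mem_closedBall_zero_iff, norm_neg, norm_smul, norm_inv, norm_norm,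
      inv_mul_cancel₀ (norm_pos_iff.2 (hΦ0 _)).ne']
  obtain ⟨y, hy, hfy⟩ := Pool.Agent.Helper30.Brouwer.brouwer_fd (Metric.closedBall (0 : Z) 1)
    (isCompact_closedBall _ _) (convex_closedBall _ _) ⟨0, by simp⟩ f hfc hfm
  have hfy' : -(‖Φ ⟨y, hy⟩‖⁻¹ • Φ ⟨y, hy⟩) = y := by
    have h := hfy
    simp only [f] at h
    rwa [dif_pos hy] at h
  have hy1 : ‖y‖ = 1 := by
    rw [← hfy', norm_neg, norm_smul, norm_inv, norm_norm,
      inv_mul_cancel₀ (norm_pos_iff.2 (hΦ0 _)).ne']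
  obtain ⟨⟨τ, x⟩, hp⟩ := hsurj ⟨y, hy⟩
  have hp' : mm (τ, x) = y := congrArg Subtype.val hp
  have hτ : τ = 1 := by
    apply Subtype.ext
    have := hmnorm (τ, x)
    rw [hp', hy1] at this
    exact this.symm
  subst hτ
  have hval : Φ ⟨y, hy⟩ = H (0, x) := by
    rw [← hp, hΦ]
    simp
  have hyk : y = ‖κ x‖⁻¹ • κ x := by
    rw [← hp']
    simp [mm]
  rw [hval, hyk] at hfy'
  set a : ℝ := ‖H (0, x)‖ with ha
  have hapos : 0 < a := norm_pos_iff.2 (hH _)
  have hkpos := hn x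
  set b : ℝ := ‖κ x‖ with hb
  refine ⟨x, a / (a + b), by positivity, ?_, ?_⟩
  · rw [div_le_one (by positivity)]
    linarith
  · have h1 : H (0, x) = -((a / b) • κ x) := by
      have h2 := congrArg (fun z => -(a • z)) hfy'
      simp only [smul_neg, neg_neg, smul_smul, mul_inv_cancel₀ hapos.ne', one_smul] at h2
      rw [h2]
      rfl
    rw [h1, smul_neg, smul_smul, ← neg_smul, ← add_smul]
    have : -((1 - a / (a + b)) * (a / b)) + a / (a + b) = 0 := by
      field_simp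
      ring
    rw [this, zero_smul]

end Main

end Pool.Agent.Helper72.Orb
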