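import Mathlib

/-!
# Orbifold configuration spaces of global quotients, and the Fadell–Neuwirth maps

Orbifold homotopy groups of a global quotient `Y/G` are the homotopy groups of the classifying
space `EG ×_G Y` of the translation groupoid. This file holds the definitions.
-/

set_option autoImplicit false

open Topology unitInterval

namespace Pool.Agent.Helper72.Orb

universe u v w

/-! ### Homotopy groups and long exact sequences -/

section Homotopy

variable {A B : Type*} [TopologicalSpace A] [TopologicalSpace B]

/-- The map `π_q(A, a) → π_q(B, f a)` induced by a continuous map `f : A → B`. -/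
def piMap (q : ℕ) (f : C(A, B)) (a : A) : π_ q A a → π_ q B (f a) :=
  Quotient.map' (s₁ := GenLoop.Homotopic.setoid (Fin q) a)
    (s₂ := GenLoop.Homotopic.setoid (Fin q) (f a))
    (fun l : GenLoop (Fin q) A a =>
      (⟨f.comp l.1, fun y hy => congrArg f (l.2 y hy)⟩ : GenLoop (Fin q) B (f a)))
    (fun _ _ h => h.map fun K => K.compContinuousMap f)

variable {F T : Type*} [TopologicalSpace F] [TopologicalSpace T]

/-- There are homomorphisms `δ : π_{q+2}(B) → π_{q+1}(F)` making the sequence
`⋯ → π_{q+2}(B) → π_{q+1}(F) → π_{q+1}(T) → π_{q+1}(B) → ⋯ → π_1(T) → π_1(B) → 1` exact. Here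
`i : F → T` and `p : T → B` are continuous maps and all groups are based at `x` and its images. -/
def HasLongExactSequence (i : C(F, T)) (p : C(T, B)) (x : F) : Prop :=
  ∃ δ : ∀ q : ℕ, π_ (q + 2) B (p (i x)) →* π_ (q + 1) F x,
    (∀ (q : ℕ) (a : π_ (q + 1) F x), piMap (q + 1) i x a = 1 ↔ ∃ b, δ q b = a) ∧
    (∀ (q : ℕ) (a : π_ (q + 1) T (i x)), piMap (q + 1) p (i x) a = 1 ↔
      ∃ b, piMap (q + 1) i x b = a) ∧
    (∀ (q : ℕ) (a : π_ (q + 2) B (p (i x))), δ q a = 1 ↔ ∃ b, piMap (q + 2) p (i x) b = a) ∧
    Function.Surjective (piMap 1 p (i x))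

end Homotopy

/-! ### Global quotient orbifolds -/

/-- `E` is a universal space for the discrete group `H`: it is contractible and `H` acts on it
continuously and freely, each point having a neighbourhood whose translates by the elements of
`H` are pairwise disjoint. -/
structure IsUniversalSpace (H : Type u) [Group H] (E : Type v) [TopologicalSpace E]
    [MulAction H E] : Prop where
  contractible : ContractibleSpace E
  continuous_smul : ∀ h : H, Continuous fun e : E => h • e
  disjoint : ∀ e : E, ∃ U ∈ 𝓝 e, ∀ h : H, ((h • ·) '' U ∩ U).Nonempty → h = 1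

section Defs

variable (H : Type u) [Group H] (E : Type v) [TopologicalSpace E] [MulAction H E]
  (X : Type w) [TopologicalSpace X] [MulAction H X]

/-- The orbit configuration space of `n` points of `X` with pairwise different `H`-orbits. With
the action of `H^n` it presents the orbifold `PB_n(M)`, for `M = X/H`. -/
def OrbitConf (n : ℕ) : Type w :=
  {x : Fin n → X // ∀ i j, i ≠ j → ∀ h : H, x i ≠ h • x j}

instance (n : ℕ) : TopologicalSpace (OrbitConf H X n) :=
  inferInstanceAs (TopologicalSpace {x : Fin n → X // ∀ i j, i ≠ j → ∀ h : H, x i ≠ h • x j})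

/-- `H^n` acts coordinatewise. -/
instance (n : ℕ) : MulAction (Fin n → H) (OrbitConf H X n) where
  smul g x := ⟨fun i => g i • x.1 i, fun i j hij h e => x.2 i j hij ((g i)⁻¹ * h * g j) (by
    rw [mul_smul, mul_smul, ← e, inv_smul_smul])⟩
  one_smul x := Subtype.ext (funext fun i => one_smul H (x.1 i))
  mul_smul g g' x := Subtype.ext (funext fun i => mul_smul (g i) (g' i) (x.1 i))

variable {X} in
/-- The complement in `X` of the orbits of the points of a configuration `y`. With the action of
`H` it presents the orbifold `F_y = M ∖ {y_1, …, y_n}`. -/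
def Punctured {n : ℕ} (y : OrbitConf H X n) : Type w :=
  {z : X // ∀ (i : Fin n) (h : H), z ≠ h • y.1 i}

variable {X} in
instance {n : ℕ} (y : OrbitConf H X n) : TopologicalSpace (Punctured H y) :=
  inferInstanceAs (TopologicalSpace {z : X // ∀ (i : Fin n) (h : H), z ≠ h • y.1 i})

variable {X} in
instance {n : ℕ} (y : OrbitConf H X n) : MulAction H (Punctured H y) where
  smul g z := ⟨g • z.1, fun i h e => z.2 i (g⁻¹ * h) (by rw [mul_smul, ← e, inv_smul_smul])⟩
  one_smul z := Subtype.ext (one_smul H z.1)
  mul_smul g g' z := Subtype.ext (mul_smul g g' z.1)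

/-- The classifying space `E^n ×_{H^n} (orbit configuration space)` of the orbifold `PB_n(M)`. -/
abbrev ClassPB (n : ℕ) : Type (max v w) :=
  MulAction.orbitRel.Quotient (Fin n → H) ((Fin n → E) × OrbitConf H X n)

variable {X} in
/-- The classifying space `E ×_H (X ∖ H·y)` of the orbifold `F_y`. -/
abbrev ClassFiber {n : ℕ} (y : OrbitConf H X n) : Type (max v w) :=
  MulAction.orbitRel.Quotient H (E × Punctured H y)

end Defs

section Maps

variable {H : Type u} [Group H] {E : Type v} [TopologicalSpace E] [MulAction H E]
  {X : Type w} [TopologicalSpace X] [MulAction H X]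

/-- Forget the last point of a configuration. -/
def OrbitConf.init {n : ℕ} (x : OrbitConf H X (n + 1)) : OrbitConf H X n :=
  ⟨fun i => x.1 i.castSucc, fun i j hij => x.2 i.castSucc j.castSucc (by simpa using hij)⟩

/-- Add a point to a configuration. -/
def OrbitConf.snoc {n : ℕ} (y : OrbitConf H X n) (z : Punctured H y) : OrbitConf H X (n + 1) :=
  ⟨Fin.snoc y.1 z.1, by
    intro i j
    refine Fin.lastCases ?_ (fun i => ?_) i <;> refine Fin.lastCases ?_ (fun j => ?_) j
    · intro h; exact absurd rfl h
    · intro _ h
      simpa using z.2 j h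
    · intro _ h e
      apply z.2 i h⁻¹
      simp only [Fin.snoc_castSucc, Fin.snoc_last] at e
      rw [e, inv_smul_smul]
    · intro hij h
      have hij' : i ≠ j := fun e => hij (by rw [e])
      simpa using y.2 i j hij' h⟩

/-- The map of classifying spaces induced by `f(M) : PB_{n+1}(M) → PB_n(M)`. -/
def classForget (n : ℕ) : C(ClassPB H E X (n + 1), ClassPB H E X n) where
  toFun := Quotient.map' (fun a => (fun i => a.1 i.castSucc, a.2.init)) (by
    rintro _ a ⟨g, rfl⟩
    exact ⟨fun i => g i.castSucc, rfl⟩)
  continuous_toFun := by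
    apply Continuous.quotient_map'
    apply Continuous.prodMk
    · fun_prop
    · apply Continuous.subtype_mk
      have h : Continuous fun a : (Fin (n + 1) → E) × OrbitConf H X (n + 1) => a.2.1 :=
        continuous_subtype_val.comp continuous_snd
      exact continuous_pi fun i => (continuous_apply _).comp h

/-- The map of classifying spaces induced by the inclusion of the fibre `F_y` of `f(M)` over `y`
(the auxiliary point `e` of `E^n` lies over the base point of the classifying space of
`PB_n(M)`). -/
def classIncl {n : ℕ} (e : Fin n → E) (y : OrbitConf H X n) :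
    C(ClassFiber H E y, ClassPB H E X (n + 1)) where
  toFun := Quotient.map' (fun a => (Fin.snoc e a.1, y.snoc a.2)) (by
    rintro _ a ⟨g, rfl⟩
    refine ⟨Fin.snoc (fun _ => 1) g, ?_⟩
    refine Prod.ext ?_ (Subtype.ext ?_)
    · funext i
      refine Fin.lastCases ?_ (fun i => ?_) i
      · change (Fin.snoc (fun _ => 1) g : Fin (n + 1) → H) (Fin.last n) •
          (Fin.snoc e a.1 : Fin (n + 1) → E) (Fin.last n) =
          (Fin.snoc e (g • a.1) : Fin (n + 1) → E) (Fin.last n)
        simp
      · change (Fin.snoc (fun _ => 1) g : Fin (n + 1) → H) i.castSucc •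
          (Fin.snoc e a.1 : Fin (n + 1) → E) i.castSucc =
          (Fin.snoc e (g • a.1) : Fin (n + 1) → E) i.castSucc
        simp
    · funext i
      refine Fin.lastCases ?_ (fun i => ?_) i
      · change (Fin.snoc (fun _ => 1) g : Fin (n + 1) → H) (Fin.last n) •
          (Fin.snoc y.1 a.2.1 : Fin (n + 1) → X) (Fin.last n) =
          (Fin.snoc y.1 (g • a.2.1) : Fin (n + 1) → X) (Fin.last n)
        simp
      · change (Fin.snoc (fun _ => 1) g : Fin (n + 1) → H) i.castSucc •
          (Fin.snoc y.1 a.2.1 : Fin (n + 1) → X) i.castSucc =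
          (Fin.snoc y.1 (g • a.2.1) : Fin (n + 1) → X) i.castSucc
        simp)
  continuous_toFun := by
    apply Continuous.quotient_map'
    apply Continuous.prodMk
    · exact Continuous.finSnoc continuous_const continuous_fst
    · apply Continuous.subtype_mk
      exact Continuous.finSnoc continuous_const (continuous_subtype_val.comp continuous_snd)

end Maps

section Quasi

variable (H : Type u) [Group H] (E : Type v) [TopologicalSpace E] [MulAction H E]
  (X : Type w) [TopologicalSpace X] [MulAction H X]

/-- `f(M) : PB_{n+1}(M) → PB_n(M)` is a quasifibration, for the orbifold `M = X/H`: for every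
smooth point `y` of `PB_n(M)` and every point `z` of the fibre `F_y` there are homomorphisms `∂`
making the sequence of orbifold homotopy groups exact. -/
def IsQuasifibration (n : ℕ) : Prop :=
  ∀ y : OrbitConf H X n, (∀ g : Fin n → H, g • y = y → g = 1) →
    ∀ (z : Punctured H y) (e : Fin n → E) (e' : E),
      HasLongExactSequence (classIncl e y) (classForget n)
        (Quotient.mk'' (e', z) : ClassFiber H E y)

end Quasi

/-! ### Linear quotient orbifolds -/

/-- The group `H` acts on the Euclidean space `V` faithfully, by linear isometries. -/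
structure IsOrthogonalAction (H : Type u) [Group H] (V : Type w) [NormedAddCommGroup V]
    [InnerProductSpace ℝ V] [MulAction H V] : Prop where
  smul_add : ∀ (h : H) (v w : V), h • (v + w) = h • v + h • w
  smul_smul : ∀ (h : H) (r : ℝ) (v : V), h • (r • v) = r • (h • v)
  norm_smul : ∀ (h : H) (v : V), ‖h • v‖ = ‖v‖
  faithful : ∀ h : H, (∀ v : V, h • v = v) → h = 1

end Pool.Agent.Helper72.Orb
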