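import Pool.Agent.Helper72.Orb.Linear

/-!
# The detecting map
-/

set_option autoImplicit false

open Topology unitInterval RealInnerProductSpace

namespace Pool.Agent.Helper72.Orb

universe u w

noncomputable section

variable {H : Type u} [Group H] {V : Type w} [NormedAddCommGroup V]
  [InnerProductSpace ℝ V] [FiniteDimensional ℝ V] [MulAction H V]

/-- The orthogonal complement of the fixed space of the stabiliser of `p`. -/
abbrev WW (hV : IsOrthogonalAction H V) (p : V) : Submodule ℝ V := (Fx hV p)ᗮ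

/-- The part of the fixed space orthogonal to `p`. -/
abbrev F0 (hV : IsOrthogonalAction H V) (p : V) : Submodule ℝ V := Fx hV p ⊓ (ℝ ∙ p)ᗮ

/-- The target of the detecting map. -/
abbrev ZZ (hV : IsOrthogonalAction H V) (p : V) : Type w := WW hV p × WW hV p × F0 hV p

variable (hV : IsOrthogonalAction H V) (p : V) (k : H) (q : WW hV p)

/-- The component of `Y - X` in `W`. -/
def cu (X Y : V) : WW hV p := (WW hV p).orthogonalProjectionOnto (Y - X)

/-- The component of `Y - k X` in `W`. -/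
def cv (X Y : V) : WW hV p := (WW hV p).orthogonalProjectionOnto (Y - k • X)

/-- The component of `Y - X` in the direction of `p`. -/
def cs (X Y : V) : ℝ := ⟪p, Y - X⟫

/-- The minimum of two components in the direction of `± q`. -/
def cm (X Y : V) : ℝ := min ⟪q, cu hV p X Y⟫ (-⟪q, cv hV p k X Y⟫)

/-- The detecting map. -/
def del (X Y : V) : ZZ hV p :=
  (cv hV p k X Y - ⟪q, cv hV p k X Y⟫ • q - (cm hV p k q X Y - cs p X Y / 2) • q,
    cu hV p X Y - ⟪q, cu hV p X Y⟫ • q + (cm hV p k q X Y + cs p X Y / 2) • q,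
    (F0 hV p).orthogonalProjectionOnto (Y - X))

theorem continuous_del : Continuous fun a : V × V => del hV p k q a.1 a.2 := by
  have hk := continuous_act hV k
  have h0 : Continuous fun a : V × V => a.2 - a.1 := continuous_snd.sub continuous_fst
  have h1 : Continuous fun a : V × V => cu hV p a.1 a.2 :=
    (WW hV p).orthogonalProjectionOnto.continuous.comp h0
  have h2 : Continuous fun a : V × V => cv hV p k a.1 a.2 :=
    (WW hV p).orthogonalProjectionOnto.continuous.comp
      (continuous_snd.sub (hk.comp continuous_fst))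
  have h3 : Continuous fun a : V × V => cs p a.1 a.2 := continuous_const.inner h0
  have h4 : Continuous fun a : V × V => ⟪q, cu hV p a.1 a.2⟫ := continuous_const.inner h1
  have h5 : Continuous fun a : V × V => ⟪q, cv hV p k a.1 a.2⟫ := continuous_const.inner h2
  have h6 : Continuous fun a : V × V => cm hV p k q a.1 a.2 := h4.min h5.neg
  have h7 : Continuous fun a : V × V => (F0 hV p).orthogonalProjectionOnto (a.2 - a.1) :=
    (F0 hV p).orthogonalProjectionOnto.continuous.comp h0
  exact ((h2.sub (h5.smul continuous_const)).sub ((h6.sub (h3.div_const 2)).smul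
    continuous_const)).prodMk (((h1.sub (h4.smul continuous_const)).add
    ((h6.add (h3.div_const 2)).smul continuous_const)).prodMk h7)

variable {p k q}

theorem inner_qq (hq : ‖q‖ = 1) : ⟪q, q⟫ = 1 := by
  rw [real_inner_self_eq_norm_sq, hq]
  norm_num

/-- A vector orthogonal to `p` and to `F0` lies in `W`. -/
theorem mem_WW_of (hp : ‖p‖ = 1) {r : V} (h1 : ⟪p, r⟫ = 0)
    (h2 : (F0 hV p).orthogonalProjectionOnto r = 0) : r ∈ WW hV p := by
  rw [Submodule.mem_orthogonal]
  intro f hf
  have hf0 : f - ⟪p, f⟫ • p ∈ F0 hV p := by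
    refine ⟨Submodule.sub_mem _ hf (Submodule.smul_mem _ _ (self_mem_Fx hV p)), ?_⟩
    rw [SetLike.mem_coe, Submodule.mem_orthogonal_singleton_iff_inner_right, inner_sub_right,
      inner_smul_right, real_inner_self_eq_norm_sq, hp]
    ring
  have h3 : ⟪f - ⟪p, f⟫ • p, r⟫ = 0 := by
    have h4 := (F0 hV p).inner_orthogonalProjectionOnto_eq_of_mem_left
      (⟨f - ⟪p, f⟫ • p, hf0⟩ : F0 hV p) r
    rw [h2, inner_zero_right] at h4
    exact h4.symm
  have h5 : f = (f - ⟪p, f⟫ • p) + ⟪p, f⟫ • p := by abel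
  rw [h5, inner_add_left, h3, inner_smul_left, h1]
  simp

theorem proj_of_mem {v : V} (hv : v ∈ WW hV p) :
    (((WW hV p).orthogonalProjectionOnto v : WW hV p) : V) = v :=
  Submodule.starProjection_eq_self_iff.2 hv

/-- Consequences of a vanishing of the components in the fixed space. -/
theorem comp_ne_zero (hp : ‖p‖ = 1) (hk : k • p = p) {X Y : V} (hXY : Y ≠ X)
    (hkXY : Y ≠ k • X) (hs : cs p X Y = 0) (h0 : (F0 hV p).orthogonalProjectionOnto (Y - X) = 0) :
    cu hV p X Y ≠ 0 ∧ cv hV p k X Y ≠ 0 := by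
  have h1 : Y - X ∈ WW hV p := mem_WW_of hV hp hs h0
  have h2 : Y - k • X ∈ WW hV p := by
    have : Y - k • X = (Y - X) + (X - k • X) := by abel
    rw [this]
    exact Submodule.add_mem _ h1 (sub_smul_mem hV hk X)
  constructor
  · intro h
    apply hXY
    have h3 := proj_of_mem hV h1
    rw [show (WW hV p).orthogonalProjectionOnto (Y - X) = 0 from h] at h3
    exact (sub_eq_zero.1 h3.symm)
  · intro h
    apply hkXY
    have h3 := proj_of_mem hV h2
    rw [show (WW hV p).orthogonalProjectionOnto (Y - k • X) = 0 from h] at h3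
    exact (sub_eq_zero.1 h3.symm)

theorem del_ne_zero (hp : ‖p‖ = 1) (hk : k • p = p) (hq : ‖q‖ = 1) {X Y : V} (hXY : Y ≠ X)
    (hkXY : Y ≠ k • X) : del hV p k q X Y ≠ 0 := by
  intro h
  have e1 : cv hV p k X Y - ⟪q, cv hV p k X Y⟫ • q -
    (cm hV p k q X Y - cs p X Y / 2) • q = 0 := congrArg Prod.fst h
  have e2 : cu hV p X Y - ⟪q, cu hV p X Y⟫ • q +
    (cm hV p k q X Y + cs p X Y / 2) • q = 0 := congrArg (fun a => a.2.1) h
  have e3 : (F0 hV p).orthogonalProjectionOnto (Y - X) = 0 := congrArg (fun a => a.2.2) h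
  have f1 : cm hV p k q X Y - cs p X Y / 2 = 0 := by
    have := congrArg (fun a => ⟪q, a⟫) e1
    simp only [inner_sub_right, inner_smul_right, inner_qq hV hq, inner_zero_right] at this
    linarith
  have f2 : cm hV p k q X Y + cs p X Y / 2 = 0 := by
    have := congrArg (fun a => ⟪q, a⟫) e2
    simp only [inner_sub_right, inner_add_right, inner_smul_right, inner_qq hV hq,
      inner_zero_right] at this
    linarith
  have hs : cs p X Y = 0 := by linarith
  have hm : cm hV p k q X Y = 0 := by linarith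
  obtain ⟨hu, hv⟩ := comp_ne_zero hV hp hk hXY hkXY hs e3
  rw [f1, zero_smul, sub_zero, sub_eq_zero] at e1
  rw [f2, zero_smul, add_zero, sub_eq_zero] at e2
  have hu' : ⟪q, cu hV p X Y⟫ ≠ 0 := by
    intro h
    rw [h, zero_smul] at e2
    exact hu e2
  have hv' : ⟪q, cv hV p k X Y⟫ ≠ 0 := by
    intro h
    rw [h, zero_smul] at e1
    exact hv e1
  rcases min_choice ⟪q, cu hV p X Y⟫ (-⟪q, cv hV p k X Y⟫) with h | h
  · exact hu' (h.symm.trans hm)
  · exact hv' (neg_eq_zero.1 (h.symm.trans hm))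

/-- On the fibre the detecting map misses a closed half line. -/
theorem del_fiber (hk : k • p = p) (hq : ‖q‖ = 1) {X Y : V} {c : ℝ} (hc : 0 < c)
    (hX : X - k • X = c • (q : V)) {μ : ℝ} (hμ : 0 ≤ μ) :
    del hV p k q X Y ≠ μ • ((-q, q, 0) : ZZ hV p) := by
  intro h
  have e1 : cv hV p k X Y - ⟪q, cv hV p k X Y⟫ • q -
    (cm hV p k q X Y - cs p X Y / 2) • q = μ • (-q) := congrArg Prod.fst h
  have e2 : cu hV p X Y - ⟪q, cu hV p X Y⟫ • q +
    (cm hV p k q X Y + cs p X Y / 2) • q = μ • q := congrArg (fun a => a.2.1) h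
  have f1 : cm hV p k q X Y - cs p X Y / 2 = μ := by
    have := congrArg (fun a => ⟪q, a⟫) e1
    simp only [inner_sub_right, inner_smul_right, inner_qq hV hq, inner_neg_right] at this
    linarith
  have f2 : cm hV p k q X Y + cs p X Y / 2 = μ := by
    have := congrArg (fun a => ⟪q, a⟫) e2
    simp only [inner_sub_right, inner_add_right, inner_smul_right, inner_qq hV hq] at this
    linarith
  have hm : cm hV p k q X Y = μ := by linarith
  rw [f1, smul_neg, sub_eq_iff_eq_add, neg_add_cancel, sub_eq_zero] at e1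
  rw [f2, add_eq_right, sub_eq_zero] at e2
  have h1 : μ ≤ ⟪q, cu hV p X Y⟫ := hm ▸ min_le_left _ _
  have h2 : μ ≤ -⟪q, cv hV p k X Y⟫ := hm ▸ min_le_right _ _
  -- the difference of the two components
  have h3 : cv hV p k X Y - cu hV p X Y = c • q := by
    unfold cv cu
    rw [← map_sub]
    have : Y - k • X - (Y - X) = c • (q : V) := by rw [← hX]; abel
    rw [this, map_smul]
    congr 1
    exact Subtype.ext (proj_of_mem hV q.2)
  have h4 := congrArg (fun a => ⟪q, a⟫) h3
  simp only [inner_sub_right, inner_smul_right, inner_qq hV hq] at h4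
  linarith

/-- The value of the detecting map on the spheroid. -/
theorem del_formula (hp : ‖p‖ = 1) (hk : k • p = p) {c ε : ℝ} (z v : WW hV p) (ρ : F0 hV p)
    {X Y : V} (hX : X - k • X = c • ((z : V) - ε • (v : V)))
    (hY : Y - X = c • (ε • (v : V) + (‖v‖ - ‖z‖) • p + (ρ : V))) :
    del hV p k q X Y =
      (c • z - ⟪q, c • z⟫ • q - (min ⟪q, c • (ε • v)⟫ (-⟪q, c • z⟫) - c * (‖v‖ - ‖z‖) / 2) • q,
        c • (ε • v) - ⟪q, c • (ε • v)⟫ • q +
          (min ⟪q, c • (ε • v)⟫ (-⟪q, c • z⟫) + c * (‖v‖ - ‖z‖) / 2) • q,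
        c • ρ) := by
  have hpF : ∀ w' ∈ WW hV p, ⟪p, w'⟫ = 0 := fun w' hw' =>
    (Submodule.mem_orthogonal _ _).1 hw' p (self_mem_Fx hV p)
  have hpP : (WW hV p).orthogonalProjectionOnto p = 0 := by
    apply Submodule.orthogonalProjectionOnto_eq_zero_iff.2
    exact (Submodule.le_orthogonal_orthogonal _) (self_mem_Fx hV p)
  have hρP : (WW hV p).orthogonalProjectionOnto (ρ : V) = 0 := by
    apply Submodule.orthogonalProjectionOnto_eq_zero_iff.2
    exact (Submodule.le_orthogonal_orthogonal _) ρ.2.1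
  have hself : ∀ w' : WW hV p, (WW hV p).orthogonalProjectionOnto (w' : V) = w' := fun w' =>
    Subtype.ext (proj_of_mem hV w'.2)
  have hcu : cu hV p X Y = c • (ε • v) := by
    unfold cu
    rw [hY, map_smul, map_add, map_add, map_smul, map_smul, hpP, hρP, hself, smul_zero, add_zero,
      add_zero]
  have hcv : cv hV p k X Y = c • z := by
    unfold cv
    have : Y - k • X = (Y - X) + (X - k • X) := by abel
    rw [this, map_add, show (WW hV p).orthogonalProjectionOnto (Y - X) = _ from hcu, hX,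
      map_smul, map_sub, map_smul, hself, hself, smul_sub]
    abel
  have hρp : ⟪p, (ρ : V)⟫ = 0 :=
    (Submodule.mem_orthogonal_singleton_iff_inner_right).1 ρ.2.2
  have hcs : cs p X Y = c * (‖v‖ - ‖z‖) := by
    unfold cs
    rw [hY, inner_smul_right, inner_add_right, inner_add_right, inner_smul_right,
      inner_smul_right, hpF _ v.2, hρp, real_inner_self_eq_norm_sq, hp]
    ring
  have hF0 : (F0 hV p).orthogonalProjectionOnto (Y - X) = c • ρ := by
    have h1 : (F0 hV p).orthogonalProjectionOnto p = 0 := by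
      apply Submodule.orthogonalProjectionOnto_eq_zero_iff.2
      rw [Submodule.mem_orthogonal]
      intro f hf
      have := (Submodule.mem_orthogonal_singleton_iff_inner_right).1 hf.2
      rw [real_inner_comm]
      exact this
    have h2 : (F0 hV p).orthogonalProjectionOnto (v : V) = 0 := by
      apply Submodule.orthogonalProjectionOnto_eq_zero_iff.2
      rw [Submodule.mem_orthogonal]
      intro f hf
      exact (Submodule.mem_orthogonal _ _).1 v.2 f hf.1
    have h3 : (F0 hV p).orthogonalProjectionOnto (ρ : V) = ρ :=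
      Subtype.ext (Submodule.starProjection_eq_self_iff.2 ρ.2)
    rw [hY, map_smul, map_add, map_add, map_smul, map_smul, h1, h2, h3, smul_zero, smul_zero,
      zero_add, zero_add]
  unfold del cm
  rw [hcu, hcv, hcs, hF0]

/-- The straight line homotopy to the identity does not vanish. -/
theorem straight_line (hq : ‖q‖ = 1) {c ε t : ℝ} (hc : 0 < c) (hε : 0 < ε) (ht : 0 ≤ t)
    (ht1 : t ≤ 1) (z v : WW hV p) (ρ : F0 hV p)
    (h : (1 - t) • ((c • z - ⟪q, c • z⟫ • q -
        (min ⟪q, c • (ε • v)⟫ (-⟪q, c • z⟫) - c * (‖v‖ - ‖z‖) / 2) • q,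
        c • (ε • v) - ⟪q, c • (ε • v)⟫ • q +
          (min ⟪q, c • (ε • v)⟫ (-⟪q, c • z⟫) + c * (‖v‖ - ‖z‖) / 2) • q,
        c • ρ) : ZZ hV p) + t • ((z, v, ρ) : ZZ hV p) = 0) : (z, v, ρ) = (0 : ZZ hV p) := by
  have e1 : (1 - t) • (c • z - ⟪q, c • z⟫ • q -
        (min ⟪q, c • (ε • v)⟫ (-⟪q, c • z⟫) - c * (‖v‖ - ‖z‖) / 2) • q) + t • z = 0 :=
    congrArg Prod.fst h
  have e2 : (1 - t) • (c • (ε • v) - ⟪q, c • (ε • v)⟫ • q +
          (min ⟪q, c • (ε • v)⟫ (-⟪q, c • z⟫) + c * (‖v‖ - ‖z‖) / 2) • q) + t • v = 0 :=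
    congrArg (fun a => a.2.1) h
  have e3 : (1 - t) • (c • ρ) + t • ρ = 0 := congrArg (fun a => a.2.2) h
  have hT : 0 ≤ 1 - t := by linarith
  have hpos1 : 0 < (1 - t) * c + t := by
    rcases eq_or_lt_of_le ht with h0 | h0
    · rw [← h0]; linarith
    · have := mul_nonneg hT hc.le; linarith
  have hpos2 : 0 < (1 - t) * (c * ε) + t := by
    rcases eq_or_lt_of_le ht with h0 | h0
    · rw [← h0]
      have := mul_pos hc hε
      linarith
    · have := mul_nonneg hT (mul_pos hc hε).le; linarith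
  have hρ : ρ = 0 := by
    rw [smul_smul, ← add_smul] at e3
    exact (smul_eq_zero.1 e3).resolve_left hpos1.ne'
  set m := min ⟪q, c • (ε • v)⟫ (-⟪q, c • z⟫) with hm
  set s := c * (‖v‖ - ‖z‖) with hs
  have f1 : -((1 - t) * (m - s / 2)) + t * ⟪q, z⟫ = 0 := by
    have := congrArg (fun a => ⟪q, a⟫) e1
    simp only [inner_sub_right, inner_add_right, inner_smul_right, inner_qq hV hq,
      inner_zero_right] at this
    linarith
  have f2 : (1 - t) * (m + s / 2) + t * ⟪q, v⟫ = 0 := by
    have := congrArg (fun a => ⟪q, a⟫) e2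
    simp only [inner_sub_right, inner_add_right, inner_smul_right, inner_qq hV hq,
      inner_zero_right] at this
    linarith
  have g1 : z = ⟪q, z⟫ • q := by
    have h1 : ((1 - t) * c + t) • (z - ⟪q, z⟫ • q) = 0 := by
      have h2 : ((1 - t) * c + t) • (z - ⟪q, z⟫ • q) = ((1 - t) • (c • z - ⟪q, c • z⟫ • q -
        (m - s / 2) • q) + t • z) - (-((1 - t) * (m - s / 2)) + t * ⟪q, z⟫) • q := by
        rw [inner_smul_right]
        module
      rw [h2, e1, f1, zero_smul, sub_zero]
    exact sub_eq_zero.1 ((smul_eq_zero.1 h1).resolve_left hpos1.ne')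
  have g2 : v = ⟪q, v⟫ • q := by
    have h1 : ((1 - t) * (c * ε) + t) • (v - ⟪q, v⟫ • q) = 0 := by
      have h2 : ((1 - t) * (c * ε) + t) • (v - ⟪q, v⟫ • q) =
        ((1 - t) • (c • (ε • v) - ⟪q, c • (ε • v)⟫ • q +
        (m + s / 2) • q) + t • v) - ((1 - t) * (m + s / 2) + t * ⟪q, v⟫) • q := by
        rw [inner_smul_right, inner_smul_right]
        module
      rw [h2, e2, f2, zero_smul, sub_zero]
    exact sub_eq_zero.1 ((smul_eq_zero.1 h1).resolve_left hpos2.ne')
  have n1 : ‖z‖ = |(-⟪q, z⟫)| := by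
    conv_lhs => rw [g1]
    rw [norm_smul, hq, mul_one, Real.norm_eq_abs, abs_neg]
  have n2 : ‖v‖ = |⟪q, v⟫| := by
    conv_lhs => rw [g2]
    rw [norm_smul, hq, mul_one, Real.norm_eq_abs]
  have key := real_key (T := 1 - t) (t := t) (c := c) (ε := ε) (α := ⟪q, v⟫) (β := -⟪q, z⟫)
    hT ht (by ring) hc hε (by
      rw [← n1, ← n2, ← hs]
      linarith) (by
      have : min (c * (ε * ⟪q, v⟫)) (c * -⟪q, z⟫) = m := by
        rw [hm, inner_smul_right, inner_smul_right, inner_smul_right, mul_neg]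
      rw [this]
      linarith)
  have hz : z = 0 := by
    rw [g1, neg_eq_zero.1 key.2, zero_smul]
  have hv : v = 0 := by
    rw [g2, key.1, zero_smul]
  rw [hz, hv, hρ]
  rfl

end

end Pool.Agent.Helper72.Orb
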