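import Pool.Agent.Helper72.Orb.Defs

/-!
# Orthogonal actions of finite groups
-/

set_option autoImplicit false

open Topology unitInterval RealInnerProductSpace

namespace Pool.Agent.Helper72.Orb

universe u w

/-! ### A lemma on real numbers -/

theorem real_key {T t c ε α β : ℝ} (hT : 0 ≤ T) (ht : 0 ≤ t) (hTt : T + t = 1) (hc : 0 < c)
    (hε : 0 < ε) (h1 : T * (c * (|α| - |β|)) + t * (α - β) = 0)
    (h2 : 2 * T * min (c * (ε * α)) (c * β) + t * (α + β) = 0) : α = 0 ∧ β = 0 := by
  have hcε : 0 < c * ε := mul_pos hc hε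
  rcases eq_or_lt_of_le hT with hT0 | hTpos
  · -- `T = 0`
    subst hT0
    have ht1 : t = 1 := by linarith
    subst ht1
    constructor <;> nlinarith
  rcases eq_or_lt_of_le ht with ht0 | htpos
  · subst ht0
    have hT1 : T = 1 := by linarith
    subst hT1
    have hm : min (c * (ε * α)) (c * β) = 0 := by linarith
    have ha : |α| = |β| := by
      have : c * (|α| - |β|) = 0 := by linarith
      have := (mul_eq_zero.1 this).resolve_left hc.ne'
      linarith
    rcases min_choice (c * (ε * α)) (c * β) with h | h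
    · rw [h] at hm
      have hα : α = 0 := by
        have := (mul_eq_zero.1 hm).resolve_left hc.ne'
        exact (mul_eq_zero.1 this).resolve_left hε.ne'
      subst hα
      rw [abs_zero] at ha
      exact ⟨rfl, abs_eq_zero.1 ha.symm⟩
    · rw [h] at hm
      have hβ : β = 0 := (mul_eq_zero.1 hm).resolve_left hc.ne'
      subst hβ
      rw [abs_zero] at ha
      exact ⟨abs_eq_zero.1 ha, rfl⟩
  have hTc : 0 < T * c := mul_pos hTpos hc
  rcases le_total 0 α with hα | hα <;> rcases le_total 0 β with hβ | hβ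
  · rw [abs_of_nonneg hα, abs_of_nonneg hβ] at h1
    have hm : 0 ≤ min (c * (ε * α)) (c * β) := le_min (by positivity) (by positivity)
    have h3 : 0 ≤ 2 * T * min (c * (ε * α)) (c * β) := by positivity
    have h4 : t * (α + β) ≤ 0 := by linarith
    have h5 : α + β ≤ 0 := by
      by_contra h
      push Not at h
      have := mul_pos htpos h
      linarith
    constructor <;> linarith
  · rw [abs_of_nonneg hα, abs_of_nonpos hβ] at h1
    have hm : min (c * (ε * α)) (c * β) = c * β :=
      min_eq_right (le_trans (mul_nonpos_of_nonneg_of_nonpos hc.le hβ) (by positivity))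
    rw [hm] at h2
    have h3 : T * c * β ≤ 0 := mul_nonpos_of_nonneg_of_nonpos hTc.le hβ
    have h4 : 0 ≤ t * (α + β) := by nlinarith
    have h5 : 0 ≤ α + β := by
      by_contra h
      push Not at h
      have := mul_neg_of_pos_of_neg htpos h
      linarith
    have h6 : 0 ≤ t * (α - β) := mul_nonneg ht (by linarith)
    have h7 : T * c * (α + β) ≤ 0 := by nlinarith
    have h8 : α + β ≤ 0 := by
      by_contra h
      push Not at h
      have := mul_pos hTc h
      linarith
    have h9 : α + β = 0 := le_antisymm h8 h5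
    have h10 : t * (α - β) = 0 := by
      have : T * (c * (α - -β)) = T * c * (α + β) := by ring
      rw [this, h9, mul_zero, zero_add] at h1
      exact h1
    have h11 := (mul_eq_zero.1 h10).resolve_left htpos.ne'
    constructor <;> linarith
  · rw [abs_of_nonpos hα, abs_of_nonneg hβ] at h1
    have hm : min (c * (ε * α)) (c * β) = c * (ε * α) := by
      apply min_eq_left
      have : c * (ε * α) ≤ 0 :=
        mul_nonpos_of_nonneg_of_nonpos hc.le (mul_nonpos_of_nonneg_of_nonpos hε.le hα)
      exact le_trans this (by positivity)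
    rw [hm] at h2
    have h3 : T * (c * (ε * α)) ≤ 0 :=
      mul_nonpos_of_nonneg_of_nonpos hT (mul_nonpos_of_nonneg_of_nonpos hc.le
        (mul_nonpos_of_nonneg_of_nonpos hε.le hα))
    have h4 : 0 ≤ t * (α + β) := by nlinarith
    have h5 : 0 ≤ α + β := by
      by_contra h
      push Not at h
      have := mul_neg_of_pos_of_neg htpos h
      linarith
    have h6 : 0 ≤ t * (β - α) := mul_nonneg ht (by linarith)
    have h7 : T * c * (α + β) ≤ 0 := by nlinarith
    have h8 : α + β ≤ 0 := by
      by_contra h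
      push Not at h
      have := mul_pos hTc h
      linarith
    have h9 : α + β = 0 := le_antisymm h8 h5
    have h10 : t * (α - β) = 0 := by
      have : T * (c * (-α - β)) = -(T * c * (α + β)) := by ring
      rw [this, h9, mul_zero, neg_zero, zero_add] at h1
      exact h1
    have h11 := (mul_eq_zero.1 h10).resolve_left htpos.ne'
    constructor <;> linarith
  · have hm : min (c * (ε * α)) (c * β) ≤ 0 :=
      le_trans (min_le_right _ _) (mul_nonpos_of_nonneg_of_nonpos hc.le hβ)
    have h3 : 2 * T * min (c * (ε * α)) (c * β) ≤ 0 :=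
      mul_nonpos_of_nonneg_of_nonpos (by positivity) hm
    have h4 : 0 ≤ t * (α + β) := by linarith
    have h5 : 0 ≤ α + β := by
      by_contra h
      push Not at h
      have := mul_neg_of_pos_of_neg htpos h
      linarith
    constructor <;> linarith

/-! ### Basic properties of orthogonal actions -/

section Basic

variable {H : Type u} [Group H] {V : Type w} [NormedAddCommGroup V]
  [InnerProductSpace ℝ V] [MulAction H V]

/-- The action of a group element as a linear isometry. -/
def lin (hV : IsOrthogonalAction H V) (h : H) : V →ₗᵢ[ℝ] V where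
  toFun v := h • v
  map_add' := hV.smul_add h
  map_smul' := hV.smul_smul h
  norm_map' := hV.norm_smul h

theorem lin_apply (hV : IsOrthogonalAction H V) (h : H) (v : V) : lin hV h v = h • v := rfl

theorem smul_zero' (hV : IsOrthogonalAction H V) (h : H) : h • (0 : V) = 0 := (lin hV h).map_zero

theorem smul_sub' (hV : IsOrthogonalAction H V) (h : H) (v v' : V) :
    h • (v - v') = h • v - h • v' := (lin hV h).map_sub v v'

theorem inner_smul' (hV : IsOrthogonalAction H V) (h : H) (v v' : V) :
    ⟪h • v, h • v'⟫ = ⟪v, v'⟫ := (lin hV h).inner_map_map v v'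

theorem continuous_act (hV : IsOrthogonalAction H V) (h : H) : Continuous fun v : V => h • v :=
  (lin hV h).continuous

/-- The subspace of the vectors fixed by the stabiliser of `p`. -/
def Fx (hV : IsOrthogonalAction H V) (p : V) : Submodule ℝ V where
  carrier := {v | ∀ k : H, k • p = p → k • v = v}
  add_mem' := by
    intro a b ha hb k hk
    rw [hV.smul_add, ha k hk, hb k hk]
  zero_mem' := fun k _ => smul_zero' hV k
  smul_mem' := by
    intro r a ha k hk
    rw [hV.smul_smul, ha k hk]

theorem mem_Fx {hV : IsOrthogonalAction H V} {p v : V} :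
    v ∈ Fx hV p ↔ ∀ k : H, k • p = p → k • v = v := Iff.rfl

theorem self_mem_Fx (hV : IsOrthogonalAction H V) (p : V) : p ∈ Fx hV p := fun _ hk => hk

theorem sub_smul_mem (hV : IsOrthogonalAction H V) {p : V} {k : H} (hk : k • p = p) (v : V) :
    v - k • v ∈ (Fx hV p)ᗮ := by
  rw [Submodule.mem_orthogonal]
  intro f hf
  have h1 : k • f = f := hf k hk
  rw [inner_sub_right]
  have h2 : ⟪f, k • v⟫ = ⟪f, v⟫ := by
    conv_lhs => rw [← h1]
    exact inner_smul' hV k f v
  rw [h2, sub_self]

theorem smul_mem_orth (hV : IsOrthogonalAction H V) {p : V} {k : H} (hk : k • p = p) {v : V}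
    (hv : v ∈ (Fx hV p)ᗮ) : k • v ∈ (Fx hV p)ᗮ := by
  have := Submodule.sub_mem _ hv (sub_smul_mem hV hk v)
  simpa using this

end Basic

/-! ### Existence of special vectors -/

section Exist

variable {H : Type u} [Group H] [Finite H] {V : Type w} [NormedAddCommGroup V]
  [InnerProductSpace ℝ V] [FiniteDimensional ℝ V] [MulAction H V]

/-- There is a unit vector with trivial stabiliser. -/
theorem exists_generic (hV : IsOrthogonalAction H V) (hne : ∃ h : H, h ≠ 1) :
    ∃ g : V, ‖g‖ = 1 ∧ ∀ h : H, h • g = g → h = 1 := by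
  classical
  have := Fintype.ofFinite H
  let S : H → Subspace ℝ V := fun h =>
    if h = 1 then ⊥ else LinearMap.ker ((lin hV h).toLinearMap - LinearMap.id)
  have hS : ∀ h, S h ≠ ⊤ := by
    intro h htop
    by_cases h1 : h = 1
    · simp only [S, if_pos h1] at htop
      obtain ⟨h', hh'⟩ := hne
      apply hh'
      apply hV.faithful
      intro v
      have hv : v ∈ (⊤ : Submodule ℝ V) := trivial
      rw [← htop, Submodule.mem_bot] at hv
      rw [hv]
      exact smul_zero' hV h'
    · simp only [S, if_neg h1] at htop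
      apply h1
      apply hV.faithful
      intro v
      have hv : v ∈ (⊤ : Submodule ℝ V) := trivial
      rw [← htop, LinearMap.mem_ker] at hv
      have : h • v - v = 0 := hv
      exact sub_eq_zero.1 this
  obtain ⟨v, hv⟩ : ∃ v : V, ∀ h, v ∉ S h := by
    by_contra hcon
    push Not at hcon
    obtain ⟨h, hh⟩ := Subspace.exists_eq_top_of_iUnion_eq_univ (p := S) (by
      rw [Set.eq_univ_iff_forall]
      intro v
      obtain ⟨h, hh⟩ := hcon v
      exact Set.mem_iUnion.2 ⟨h, hh⟩)
    exact hS h hh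
  have hv0 : v ≠ 0 := by
    intro h
    apply hv 1
    rw [h]
    exact Submodule.zero_mem _
  have hvn : 0 < ‖v‖ := norm_pos_iff.2 hv0
  refine ⟨‖v‖⁻¹ • v, ?_, ?_⟩
  · rw [norm_smul, norm_inv, norm_norm, inv_mul_cancel₀ hvn.ne']
  · intro h hh
    by_contra h1
    apply hv h
    simp only [S, if_neg h1]
    rw [LinearMap.mem_ker]
    change h • v - v = 0
    rw [hV.smul_smul] at hh
    rw [sub_eq_zero]
    exact smul_right_injective _ (inv_pos.2 hvn).ne' hh

omit [InnerProductSpace ℝ V] [FiniteDimensional ℝ V] in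
/-- A finite group moves a point by at least a positive amount, or not at all. -/
theorem exists_gap (p : V) : ∃ d : ℝ, 0 < d ∧ ∀ h : H, h • p ≠ p → d ≤ ‖h • p - p‖ := by
  classical
  have := Fintype.ofFinite H
  let s : Finset H := Finset.univ.filter fun h => h • p ≠ p
  by_cases hs : s.Nonempty
  · obtain ⟨h0, hh0, hmin⟩ := s.exists_min_image (fun h => ‖h • p - p‖) hs
    refine ⟨‖h0 • p - p‖, ?_, fun h hh => hmin h (by simp [s, hh])⟩
    rw [norm_pos_iff, sub_ne_zero]
    exact (Finset.mem_filter.1 hh0).2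
  · refine ⟨1, one_pos, fun h hh => absurd ?_ hs⟩
    exact ⟨h, by simp [s, hh]⟩

omit [FiniteDimensional ℝ V] in
/-- A unit vector with minimal nontrivial stabiliser. -/
theorem exists_minimal (hV : IsOrthogonalAction H V)
    (hs : ∃ h : H, h ≠ 1 ∧ ∃ v : V, v ≠ 0 ∧ h • v = v) :
    ∃ p : V, ‖p‖ = 1 ∧ (∃ k : H, k ≠ 1 ∧ k • p = p) ∧
      ∀ k : H, k ≠ 1 → k • p = p → ∀ w' ∈ (Fx hV p)ᗮ, k • w' = w' → w' = 0 := by
  classical
  let P : ℕ → Prop := fun n => ∃ v : V, v ≠ 0 ∧ (∃ k : H, k ≠ 1 ∧ k • v = v) ∧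
    Nat.card (MulAction.stabilizer H v) = n
  have hP : ∃ n, P n := by
    obtain ⟨h, h1, v, hv, hhv⟩ := hs
    exact ⟨_, v, hv, ⟨h, h1, hhv⟩, rfl⟩
  obtain ⟨v, hv, ⟨k0, hk0, hk0v⟩, hcard⟩ := Nat.find_spec hP
  have hvn : 0 < ‖v‖ := norm_pos_iff.2 hv
  have hpv : ∀ h : H, h • (‖v‖⁻¹ • v) = ‖v‖⁻¹ • v ↔ h • v = v := by
    intro h
    rw [hV.smul_smul]
    exact ⟨fun e => smul_right_injective _ (inv_pos.2 hvn).ne' e, fun e => by rw [e]⟩
  refine ⟨‖v‖⁻¹ • v, ?_, ⟨k0, hk0, (hpv k0).2 hk0v⟩, ?_⟩
  · rw [norm_smul, norm_inv, norm_norm, inv_mul_cancel₀ hvn.ne']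
  · intro k hk hkp w' hw' hkw
    by_contra hw0
    have hwn : 0 < ‖w'‖ := norm_pos_iff.2 hw0
    obtain ⟨d, hd, hgap⟩ := exists_gap (H := H) v
    -- the perturbed vector
    set t : ℝ := d / (4 * ‖w'‖) with ht
    have htpos : 0 < t := by positivity
    have hstab : ∀ h : H, h • (v + t • w') = v + t • w' → h • v = v ∧ h • w' = w' := by
      intro h hh
      rw [hV.smul_add, hV.smul_smul] at hh
      have h1 : h • v = v := by
        by_contra hne
        have h2 := hgap h hne
        have h3 : h • v - v = t • (w' - h • w') := by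
          rw [smul_sub, sub_eq_sub_iff_add_eq_add, hh, add_comm]
        have h4 : ‖w' - h • w'‖ ≤ 2 * ‖w'‖ := by
          calc ‖w' - h • w'‖ ≤ ‖w'‖ + ‖h • w'‖ := norm_sub_le _ _
            _ = 2 * ‖w'‖ := by rw [hV.norm_smul]; ring
        rw [h3, norm_smul, Real.norm_eq_abs, abs_of_pos htpos] at h2
        have h5 : t * ‖w' - h • w'‖ ≤ t * (2 * ‖w'‖) := mul_le_mul_of_nonneg_left h4 htpos.le
        have h6 : t * (2 * ‖w'‖) = d / 2 := by
          rw [ht]; field_simp; ring
        linarith
      refine ⟨h1, ?_⟩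
      rw [h1] at hh
      exact smul_right_injective _ htpos.ne' (add_left_cancel hh)
    have hpF : v ∈ Fx hV (‖v‖⁻¹ • v) := fun h hh => (hpv h).1 hh
    have hort : ⟪v, w'⟫ = 0 := (Submodule.mem_orthogonal _ _).1 hw' v hpF
    have hne : v + t • w' ≠ 0 := by
      intro h0
      have h1 : ⟪v, v + t • w'⟫ = 0 := by rw [h0, inner_zero_right]
      rw [inner_add_right, inner_smul_right, hort, mul_zero, add_zero] at h1
      exact hv (inner_self_eq_zero.1 h1)
    have hle : Nat.card (MulAction.stabilizer H v) ≤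
        Nat.card (MulAction.stabilizer H (v + t • w')) := by
      rw [hcard]
      apply Nat.find_min'
      refine ⟨v + t • w', hne, ⟨k, hk, ?_⟩, rfl⟩
      rw [hV.smul_add, hV.smul_smul, (hpv k).1 hkp, hkw]
    have hsub : MulAction.stabilizer H (v + t • w') ≤ MulAction.stabilizer H v := by
      intro h hh
      exact (hstab h hh).1
    have heq : MulAction.stabilizer H (v + t • w') = MulAction.stabilizer H v :=
      Subgroup.eq_of_le_of_card_ge hsub hle
    -- then `w'` is fixed by the stabiliser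
    have hwF : w' ∈ Fx hV (‖v‖⁻¹ • v) := by
      intro h hh
      have h1 : h ∈ MulAction.stabilizer H v := (hpv h).1 hh
      rw [← heq] at h1
      exact (hstab h h1).2
    have := (Submodule.mem_orthogonal _ _).1 hw' w' hwF
    exact hw0 (inner_self_eq_zero.1 this)

/-- The nontrivial elements of the stabiliser move the vectors of the orthogonal complement by
at least a fixed proportion of their length. -/
theorem exists_free_const (hV : IsOrthogonalAction H V) {p : V}
    (hfree : ∀ k : H, k ≠ 1 → k • p = p → ∀ w' ∈ (Fx hV p)ᗮ, k • w' = w' → w' = 0) :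
    ∃ c : ℝ, 0 < c ∧ ∀ k : H, k ≠ 1 → k • p = p → ∀ w' ∈ (Fx hV p)ᗮ,
      c * ‖w'‖ ≤ ‖k • w' - w'‖ := by
  classical
  have := Fintype.ofFinite H
  have h1 : ∀ k : H, ∃ c : ℝ, 0 < c ∧ (k ≠ 1 → k • p = p → ∀ w' ∈ (Fx hV p)ᗮ,
      c * ‖w'‖ ≤ ‖k • w' - w'‖) := by
    intro k
    by_cases hk : k ≠ 1 ∧ k • p = p
    · let L : (Fx hV p)ᗮ →ₗ[ℝ] V :=
        ((lin hV k).toLinearMap - LinearMap.id).comp (Submodule.subtype _)
      have hL : LinearMap.ker L = ⊥ := by
        rw [LinearMap.ker_eq_bot']
        intro w' hw'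
        have : k • (w' : V) - w' = 0 := hw'
        exact Subtype.ext (hfree k hk.1 hk.2 w' w'.2 (sub_eq_zero.1 this))
      obtain ⟨C, hC, hCl⟩ := L.exists_antilipschitzWith hL
      refine ⟨(C : ℝ)⁻¹, by positivity, fun _ _ w' hw' => ?_⟩
      have h2 := hCl.le_mul_norm (map_zero L) (⟨w', hw'⟩ : (Fx hV p)ᗮ)
      have h3 : ‖w'‖ ≤ C * ‖k • w' - w'‖ := h2
      rw [inv_mul_le_iff₀ (by exact_mod_cast hC)]
      exact h3
    · refine ⟨1, one_pos, fun h2 h3 => absurd ⟨h2, h3⟩ hk⟩
  choose c hc hc' using h1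
  have hne : (Finset.univ : Finset H).Nonempty := ⟨1, Finset.mem_univ _⟩
  obtain ⟨k0, -, hmin⟩ := Finset.univ.exists_min_image c hne
  refine ⟨c k0, hc k0, fun k hk hkp w' hw' => ?_⟩
  refine le_trans ?_ (hc' k hk hkp w' hw')
  exact mul_le_mul_of_nonneg_right (hmin k (Finset.mem_univ _)) (norm_nonneg _)

end Exist

end Pool.Agent.Helper72.Orb
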