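import Pool.Agent.Helper72.Orb.Defs

/-!
# Universal spaces of finite groups exist

The space of nonzero sequences in the cone over the discrete space `H`.
-/

set_option autoImplicit false

open Topology unitInterval

namespace Pool.Agent.Helper72.Orb

universe u

section

variable (H : Type u) [Group H] [Fintype H]

/-- `z : H → ℝ` lies in the cone over `H`: it is a nonnegative multiple of a basis vector. -/
def InCone (z : H → ℝ) : Prop := (∀ h, 0 ≤ z h) ∧ ∀ h k, z h ≠ 0 → z k ≠ 0 → h = k

/-- The space of nonzero sequences in the cone over `H`. -/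
structure ConeSeq where
  /-- the sequence -/
  val : ℕ → H → ℝ
  mem : ∀ n, InCone H (val n)
  ne_zero : val ≠ 0

instance : TopologicalSpace (ConeSeq H) := TopologicalSpace.induced ConeSeq.val inferInstance

variable {H}

omit [Group H] [Fintype H] in
theorem continuous_val : Continuous (ConeSeq.val : ConeSeq H → ℕ → H → ℝ) :=
  continuous_induced_dom

omit [Group H] [Fintype H] in
theorem ConeSeq.ext' {x y : ConeSeq H} (h : ∀ n k, x.val n k = y.val n k) : x = y := by
  obtain ⟨x, hx, hx'⟩ := x
  obtain ⟨y, hy, hy'⟩ := y
  have : x = y := funext fun n => funext fun k => h n k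
  subst this
  rfl

/-- Left translation of a function on `H`. -/
def trans (g : H) (z : H → ℝ) : H → ℝ := fun h => z (g⁻¹ * h)

omit [Fintype H] in
theorem inCone_trans (g : H) {z : H → ℝ} (hz : InCone H z) : InCone H (trans g z) :=
  ⟨fun h => hz.1 _, fun h k hh hk => mul_left_cancel (hz.2 _ _ hh hk)⟩

instance : MulAction H (ConeSeq H) where
  smul g x := ⟨fun n => trans g (x.val n), fun n => inCone_trans g (x.mem n), by
    intro h
    apply x.ne_zero
    funext n k
    have := congrFun (congrFun h n) (g * k)
    simpa [trans] using this⟩
  one_smul x := ConeSeq.ext' fun n k => by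
    change trans 1 (x.val n) k = x.val n k
    simp [trans]
  mul_smul g g' x := ConeSeq.ext' fun n k => by
    change trans (g * g') (x.val n) k = trans g (trans g' (x.val n)) k
    simp [trans, mul_assoc]

theorem smul_val (g : H) (x : ConeSeq H) (n : ℕ) (k : H) :
    (g • x).val n k = x.val n (g⁻¹ * k) := rfl

/-- The retraction of the positive orthant to the cone. -/
def retr (z : H → ℝ) : H → ℝ := fun h => max 0 (2 * z h - ∑ k, z k)

omit [Group H] in
theorem continuous_retr : Continuous (retr : (H → ℝ) → H → ℝ) := by
  apply continuous_pi
  intro h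
  apply continuous_const.max
  exact (continuous_const.mul (continuous_apply h)).sub
    (continuous_finsetSum _ fun k _ => continuous_apply k)

omit [Group H] in
theorem inCone_retr {z : H → ℝ} (hz : ∀ h, 0 ≤ z h) : InCone H (retr z) := by
  classical
  refine ⟨fun h => le_max_left _ _, fun h k hh hk => ?_⟩
  by_contra hne
  have h1 : 0 < 2 * z h - ∑ k, z k := by
    by_contra h'
    exact hh (max_eq_left (not_lt.1 h'))
  have h2 : 0 < 2 * z k - ∑ k, z k := by
    by_contra h'
    exact hk (max_eq_left (not_lt.1 h'))
  have h3 : z h + z k ≤ ∑ k, z k := by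
    have : ∑ i ∈ {h, k}, z i ≤ ∑ i, z i :=
      Finset.sum_le_sum_of_subset_of_nonneg (Finset.subset_univ _) fun i _ _ => hz i
    rwa [Finset.sum_pair hne] at this
  linarith

omit [Group H] in
theorem retr_of_inCone {z : H → ℝ} (hz : InCone H z) : retr z = z := by
  classical
  funext h
  by_cases h0 : z h = 0
  · unfold retr
    rw [h0]
    apply max_eq_left
    have : 0 ≤ ∑ k, z k := Finset.sum_nonneg fun k _ => hz.1 k
    linarith
  · have : ∑ k, z k = z h := by
      apply Finset.sum_eq_single_of_mem h (Finset.mem_univ _)
      intro k _ hk
      by_contra hk'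
      exact hk (hz.2 _ _ hk' h0)
    unfold retr
    rw [this, max_eq_right] <;> linarith [hz.1 h]

omit [Group H] [Fintype H] in
theorem inCone_zero : InCone H (0 : H → ℝ) :=
  ⟨fun _ => le_rfl, fun h k hh => absurd rfl hh⟩

omit [Group H] [Fintype H] in
theorem inCone_smul {z : H → ℝ} (hz : InCone H z) {c : ℝ} (hc : 0 ≤ c) :
    InCone H (fun h => c * z h) :=
  ⟨fun h => mul_nonneg hc (hz.1 h), fun h k hh hk =>
    hz.2 h k (right_ne_zero_of_mul hh) (right_ne_zero_of_mul hk)⟩

/-- The shift. -/
def shift (x : ℕ → H → ℝ) : ℕ → H → ℝ
  | 0 => 0
  | n + 1 => x n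

omit [Group H] [Fintype H] in
theorem continuous_shift : Continuous (shift : (ℕ → H → ℝ) → ℕ → H → ℝ) := by
  apply continuous_pi
  intro n
  cases n with
  | zero => exact continuous_const
  | succ n => exact continuous_apply n

omit [Group H] [Fintype H] in
theorem shift_ne_zero {x : ℕ → H → ℝ} (hx : x ≠ 0) : shift x ≠ 0 := by
  intro h
  apply hx
  funext n
  exact congrFun h (n + 1)

omit [Group H] [Fintype H] in
theorem inCone_shift {x : ℕ → H → ℝ} (hx : ∀ n, InCone H (x n)) (n : ℕ) :
    InCone H (shift x n) := by
  cases n with
  | zero => exact inCone_zero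
  | succ n => exact hx n

/-- The interpolation between the identity and the shift. -/
def mix (t : ℝ) (x : ℕ → H → ℝ) : ℕ → H → ℝ :=
  fun n => retr fun h => (1 - t) * x n h + t * shift x n h

theorem inCone_mix {t : ℝ} (h0 : 0 ≤ t) (h1 : t ≤ 1) {x : ℕ → H → ℝ}
    (hx : ∀ n, InCone H (x n)) (n : ℕ) : InCone H (mix t x n) := by
  apply inCone_retr
  intro h
  have := (hx n).1 h
  have := (inCone_shift hx n).1 h
  have : 0 ≤ 1 - t := by linarith
  positivity

theorem mix_ne_zero {t : ℝ} (h1 : t ≤ 1) {x : ℕ → H → ℝ}
    (hx : ∀ n, InCone H (x n)) (hx0 : x ≠ 0) : mix t x ≠ 0 := by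
  intro h
  by_cases ht : t = 1
  · apply shift_ne_zero hx0
    funext n
    have := congrFun h n
    unfold mix at this
    rw [ht] at this
    simp only [sub_self, zero_mul, zero_add, one_mul] at this
    rw [show (fun h => shift x n h) = shift x n from rfl,
      retr_of_inCone (inCone_shift hx n)] at this
    exact this
  · apply hx0
    have ht' : 0 < 1 - t := lt_of_le_of_ne (by linarith) (fun h' => ht (by linarith))
    have key : ∀ n, shift x n = 0 → x n = 0 := by
      intro n hn
      have := congrFun h n
      unfold mix at this
      rw [hn] at this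
      simp only [Pi.zero_apply, mul_zero, add_zero] at this
      rw [retr_of_inCone (inCone_smul (hx n) ht'.le)] at this
      funext k
      exact (mul_eq_zero.1 (congrFun this k)).resolve_left ht'.ne'
    funext n
    induction n with
    | zero => exact key 0 rfl
    | succ n ih => exact key (n + 1) ih

/-- The base vector. -/
noncomputable def basev (n : ℕ) (h : H) : ℝ := by
  classical exact if n = 0 ∧ h = 1 then 1 else 0

omit [Fintype H] in
theorem basev_zero_one : basev 0 (1 : H) = 1 := by
  simp [basev]

omit [Fintype H] in
theorem basev_succ (n : ℕ) (h : H) : basev (n + 1) h = 0 := by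
  simp [basev]

omit [Fintype H] in
theorem inCone_basev (n : ℕ) : InCone H (basev n) := by
  classical
  refine ⟨fun h => ?_, fun h k hh hk => ?_⟩
  · unfold basev
    split_ifs <;> norm_num
  · have e : ∀ h : H, basev n h ≠ 0 → h = 1 := by
      intro h hh
      unfold basev at hh
      by_contra hne
      apply hh
      rw [if_neg (fun h' => hne h'.2)]
    rw [e h hh, e k hk]

omit [Fintype H] in
theorem mix'_mem {t : ℝ} (h0 : 0 ≤ t) (h1 : t ≤ 1) {x : ℕ → H → ℝ}
    (hx : ∀ n, InCone H (x n)) (n : ℕ) :
    InCone H (fun h => (1 - t) * shift x n h + t * basev n h) := by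
  cases n with
  | zero =>
    have : (fun h => (1 - t) * shift x 0 h + t * basev 0 h) = fun h : H => t * basev 0 h := by
      funext h
      simp [shift]
    rw [this]
    exact inCone_smul (inCone_basev 0) h0
  | succ n =>
    have : (fun h => (1 - t) * shift x (n + 1) h + t * basev (n + 1) h) =
        fun h : H => (1 - t) * x n h := by
      funext h
      rw [basev_succ]
      simp [shift]
    rw [this]
    exact inCone_smul (hx n) (by linarith)

omit [Fintype H] in
theorem mix'_ne_zero (t : ℝ) {x : ℕ → H → ℝ} (hx0 : x ≠ 0) :
    (fun n h => (1 - t) * shift x n h + t * basev n h) ≠ 0 := by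
  intro h
  by_cases ht : t = 0
  · apply shift_ne_zero hx0
    funext n k
    have := congrFun (congrFun h n) k
    simpa [ht] using this
  · have := congrFun (congrFun h 0) 1
    simp only [shift, Pi.zero_apply, mul_zero, zero_add, basev_zero_one, mul_one] at this
    exact ht this

theorem isUniversal_coneSeq : IsUniversalSpace H (ConeSeq H) where
  contractible := by
    rw [contractible_iff_id_nullhomotopic]
    let s : C(ConeSeq H, ConeSeq H) :=
      ⟨fun x => ⟨shift x.val, inCone_shift x.mem, shift_ne_zero x.ne_zero⟩,
        continuous_induced_rng.2 (continuous_shift.comp continuous_val)⟩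
    let b : ConeSeq H := ⟨basev, inCone_basev, fun h => by
      have := congrFun (congrFun h 0) 1
      rw [basev_zero_one] at this
      exact one_ne_zero this⟩
    refine ⟨b, ?_⟩
    have h1 : (ContinuousMap.id (ConeSeq H)).Homotopic s := by
      refine ⟨⟨⟨fun a => ⟨mix a.1 a.2.val, inCone_mix a.1.2.1 a.1.2.2 a.2.mem,
        mix_ne_zero a.1.2.2 a.2.mem a.2.ne_zero⟩, ?_⟩, ?_, ?_⟩⟩
      · apply continuous_induced_rng.2
        apply continuous_pi
        intro n
        have h1 : Continuous fun a : I × ConeSeq H => (a.1 : ℝ) :=
          continuous_subtype_val.comp continuous_fst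
        apply continuous_retr.comp
        apply continuous_pi
        intro k
        have h2 : Continuous fun a : I × ConeSeq H => a.2.val n k :=
          (continuous_apply k).comp ((continuous_apply n).comp
            (continuous_val.comp continuous_snd))
        have h3 : Continuous fun a : I × ConeSeq H => shift a.2.val n k :=
          (continuous_apply k).comp ((continuous_apply n).comp
            (continuous_shift.comp (continuous_val.comp continuous_snd)))
        exact ((continuous_const.sub h1).mul h2).add (h1.mul h3)
      · intro x
        apply ConeSeq.ext'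
        intro n k
        change retr (fun h => (1 - ((0 : I) : ℝ)) * x.val n h + ((0 : I) : ℝ) * shift x.val n h) k =
          x.val n k
        simp only [Set.Icc.coe_zero, sub_zero, one_mul, zero_mul, add_zero]
        rw [show (fun h => x.val n h) = x.val n from rfl, retr_of_inCone (x.mem n)]
      · intro x
        apply ConeSeq.ext'
        intro n k
        change retr (fun h => (1 - ((1 : I) : ℝ)) * x.val n h + ((1 : I) : ℝ) * shift x.val n h) k =
          shift x.val n k
        simp only [Set.Icc.coe_one, sub_self, one_mul, zero_mul, zero_add]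
        rw [show (fun h => shift x.val n h) = shift x.val n from rfl,
          retr_of_inCone (inCone_shift x.mem n)]
    have h2 : s.Homotopic (ContinuousMap.const _ b) := by
      refine ⟨⟨⟨fun a => ⟨fun n h => (1 - (a.1 : ℝ)) * shift a.2.val n h + a.1 * basev n h,
        mix'_mem a.1.2.1 a.1.2.2 a.2.mem, mix'_ne_zero _ a.2.ne_zero⟩, ?_⟩, ?_, ?_⟩⟩
      · apply continuous_induced_rng.2
        apply continuous_pi
        intro n
        apply continuous_pi
        intro k
        have h1 : Continuous fun a : I × ConeSeq H => (a.1 : ℝ) :=
          continuous_subtype_val.comp continuous_fst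
        have h3 : Continuous fun a : I × ConeSeq H => shift a.2.val n k :=
          (continuous_apply k).comp ((continuous_apply n).comp
            (continuous_shift.comp (continuous_val.comp continuous_snd)))
        exact ((continuous_const.sub h1).mul h3).add (h1.mul continuous_const)
      · intro x
        apply ConeSeq.ext'
        intro n k
        simp [s]
      · intro x
        apply ConeSeq.ext'
        intro n k
        simp [b]
    exact h1.trans h2
  continuous_smul g := by
    apply continuous_induced_rng.2
    apply continuous_pi
    intro n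
    apply continuous_pi
    intro k
    exact (continuous_apply (g⁻¹ * k)).comp ((continuous_apply n).comp continuous_val)
  disjoint x := by
    obtain ⟨n, k, hn⟩ : ∃ n k, x.val n k ≠ 0 := by
      by_contra h
      push Not at h
      exact x.ne_zero (funext fun n => funext fun k => h n k)
    have hc : Continuous fun y : ConeSeq H => y.val n k :=
      (continuous_apply k).comp ((continuous_apply n).comp continuous_val)
    refine ⟨{y | y.val n k ≠ 0}, ?_, ?_⟩
    · exact (isOpen_ne_fun hc continuous_const).mem_nhds hn
    · rintro g ⟨y, ⟨w, hw, rfl⟩, hy⟩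
      have h1 : w.val n k ≠ 0 := hw
      have h2 : w.val n (g⁻¹ * k) ≠ 0 := hy
      have h3 := (w.mem n).2 _ _ h1 h2
      have h4 : g⁻¹ = 1 := by
        have : g⁻¹ * k = 1 * k := by rw [← h3, one_mul]
        exact mul_right_cancel this
      exact inv_eq_one.1 h4

end

/-- Every finite group has a universal space. -/
theorem exists_universalSpace (H : Type u) [Group H] [Finite H] :
    ∃ (E : Type u) (_ : TopologicalSpace E) (_ : MulAction H E), IsUniversalSpace H E := by
  have := Fintype.ofFinite H
  exact ⟨ConeSeq H, inferInstance, inferInstance, isUniversal_coneSeq⟩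

end Pool.Agent.Helper72.Orb
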